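import Pool.Agent.H88.CM.Targets

/-! Golden returns (problem MP_43af95_an): a bump which vanishes at a given point of its support. -/

set_option autoImplicit false

open Pool.Agent.H88.CL Pool.Agent.H88.CM Set Function Topology Metric Filter

namespace Pool.Agent.H63.GR

/-- a bump of radius `R` equal to `w` at `c` which vanishes at a point `v1` at distance `r` of `c` -/
theorem bump_fix (hB : T_BMP) (d : ℕ) : ∃ C : ℝ, 1 ≤ C ∧ ∀ (c v1 w : E d) (r R : ℝ), 0 < r →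
    r ≤ R → ‖v1 - c‖ = r → ∃ u : E d → E d, ContDiff ℝ 2 u ∧
      (∀ v, ‖u v‖ ≤ C * (R / r) * ‖w‖) ∧ (∀ v, ‖fderiv ℝ u v‖ ≤ C * (1 / r) * ‖w‖) ∧
      (∀ v v', ‖fderiv ℝ u v - fderiv ℝ u v'‖ ≤ C * (1 / (R * r)) * ‖w‖ * ‖v - v'‖) ∧
      u c = w ∧ u v1 = 0 ∧ ∀ v, u v ≠ 0 → ‖v - c‖ < R := by
  obtain ⟨φ, C, hC, hφ2, hφ1, hφ0, hφb, hφd, hφl⟩ := hB d
  have hC0 : 0 < C := by linarith
  refine ⟨4 * C, by linarith, ?_⟩
  intro c v1 w r R hr hrR hv1
  have hR : 0 < R := lt_of_lt_of_le hr hrR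
  obtain ⟨ψ, hψ⟩ : ∃ ψ : E d → ℝ, ψ = fun v => φ (R⁻¹ • (v - c)) := ⟨_, rfl⟩
  obtain ⟨Λ, hΛ⟩ : ∃ Λ : E d →L[ℝ] ℝ, Λ = (-(r ^ 2)⁻¹) • innerSL ℝ (v1 - c) := ⟨_, rfl⟩
  obtain ⟨ℓ, hℓ⟩ : ∃ ℓ : E d → ℝ, ℓ = fun v => 1 + Λ (v - c) := ⟨_, rfl⟩
  -- the affine function
  have hΛn : ‖Λ‖ ≤ 1 / r := by
    rw [hΛ, norm_smul, innerSL_apply_norm, hv1, norm_neg, norm_inv, Real.norm_eq_abs,
      abs_of_pos (by positivity : (0:ℝ) < r ^ 2)]
    apply le_of_eq
    field_simp
  have hℓd : ∀ v, HasFDerivAt ℓ Λ v := by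
    intro v
    have h1 : HasFDerivAt (fun v : E d => v - c) (ContinuousLinearMap.id ℝ (E d)) v :=
      (hasFDerivAt_id v).sub_const c
    have h2 : HasFDerivAt (fun v : E d => Λ (v - c)) (Λ.comp (ContinuousLinearMap.id ℝ (E d))) v :=
      Λ.hasFDerivAt.comp v h1
    have h3 := h2.const_add 1
    rw [ContinuousLinearMap.comp_id] at h3
    rw [hℓ]
    exact h3
  have hℓL : ∀ v v', |ℓ v - ℓ v'| ≤ 1 / r * ‖v - v'‖ := by
    intro v v'
    have h1 : ℓ v - ℓ v' = Λ (v - v') := by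
      rw [hℓ]
      simp only [map_sub]
      ring
    rw [h1, ← Real.norm_eq_abs]
    exact (Λ.le_opNorm _).trans (mul_le_mul_of_nonneg_right hΛn (norm_nonneg _))
  have hℓb : ∀ v, ‖v - c‖ ≤ R → |ℓ v| ≤ 2 * (R / r) := by
    intro v hv
    have h1 : ℓ c = 1 := by rw [hℓ]; simp
    have h2 := hℓL v c
    have h3 : |ℓ v| ≤ |ℓ v - ℓ c| + |ℓ c| := by
      have := abs_add_le (ℓ v - ℓ c) (ℓ c)
      rwa [sub_add_cancel] at this
    rw [h1, abs_one] at h3
    have h4 : 1 / r * ‖v - c‖ ≤ R / r := by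
      rw [div_mul_eq_mul_div, one_mul]
      exact div_le_div_of_nonneg_right hv hr.le
    have h5 : 1 ≤ R / r := by rw [le_div_iff₀ hr]; linarith
    rw [h1] at h2
    linarith
  -- the cut-off
  have hψd : ∀ v, HasFDerivAt ψ (R⁻¹ • fderiv ℝ φ (R⁻¹ • (v - c))) v := by
    intro v
    have h1 : HasFDerivAt (fun v : E d => R⁻¹ • (v - c)) (R⁻¹ • ContinuousLinearMap.id ℝ (E d)) v :=
      ((hasFDerivAt_id v).sub_const c).const_smul R⁻¹
    have h2 : HasFDerivAt φ (fderiv ℝ φ (R⁻¹ • (v - c))) (R⁻¹ • (v - c)) :=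
      (hφ2.differentiable (by norm_num) _).hasFDerivAt
    have h3 := h2.comp v h1
    rw [hψ]
    refine h3.congr_fderiv ?_
    ext y
    simp
  have hψd' : ∀ v, fderiv ℝ ψ v = R⁻¹ • fderiv ℝ φ (R⁻¹ • (v - c)) := fun v => (hψd v).fderiv
  have hψb : ∀ v, |ψ v| ≤ 1 := by
    intro v
    rw [hψ]
    exact hφb _
  have hψn : ∀ v, ‖fderiv ℝ ψ v‖ ≤ C * (1 / R) := by
    intro v
    rw [hψd', norm_smul, norm_inv, Real.norm_eq_abs, abs_of_pos hR]
    have := mul_le_mul_of_nonneg_left (hφd (R⁻¹ • (v - c))) (inv_nonneg.2 hR.le)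
    refine this.trans (le_of_eq ?_)
    rw [one_div]; ring
  have hψl : ∀ v v', ‖fderiv ℝ ψ v - fderiv ℝ ψ v'‖ ≤ C * (1 / R) ^ 2 * ‖v - v'‖ := by
    intro v v'
    rw [hψd', hψd', ← smul_sub, norm_smul, norm_inv, Real.norm_eq_abs, abs_of_pos hR]
    have h1 := mul_le_mul_of_nonneg_left (hφl (R⁻¹ • (v - c)) (R⁻¹ • (v' - c)))
      (inv_nonneg.2 hR.le)
    refine h1.trans (le_of_eq ?_)
    rw [← smul_sub, norm_smul, norm_inv, Real.norm_eq_abs, abs_of_pos hR]
    have : v - c - (v' - c) = v - v' := by abel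
    rw [this, one_div]
    ring
  have hψL : ∀ v v', |ψ v - ψ v'| ≤ C * (1 / R) * ‖v - v'‖ := by
    intro v v'
    have h1 := Convex.norm_image_sub_le_of_norm_fderiv_le (𝕜 := ℝ) (f := ψ)
      (C := C * (1 / R)) (s := Set.univ) (x := v') (y := v)
      (fun x _ => (hψd x).differentiableAt) (fun x _ => hψn x) convex_univ (mem_univ _)
      (mem_univ _)
    rw [Real.norm_eq_abs] at h1
    exact h1
  have hψ0 : ∀ v, 7 / 10 * R < ‖v - c‖ → ψ v = 0 ∧ fderiv ℝ ψ v = 0 := by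
    have hop : IsOpen {v : E d | 7 / 10 * R < ‖v - c‖} :=
      isOpen_lt continuous_const ((continuous_id.sub continuous_const).norm)
    have h0 : ∀ v ∈ {v : E d | 7 / 10 * R < ‖v - c‖}, ψ v = 0 := by
      intro v hv
      rw [hψ]
      apply hφ0
      rw [norm_smul, norm_inv, Real.norm_eq_abs, abs_of_pos hR, ← div_eq_inv_mul,
        le_div_iff₀ hR]
      exact le_of_lt hv
    intro v hv
    refine ⟨h0 v hv, ?_⟩
    have h1 : ψ =ᶠ[𝓝 v] fun _ => (0:ℝ) := by
      filter_upwards [hop.mem_nhds hv] with z hz using h0 z hz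
    rw [h1.fderiv_eq]
    exact (hasFDerivAt_const (0:ℝ) v).fderiv
  -- the product
  obtain ⟨s, hs⟩ : ∃ s : E d → ℝ, s = fun v => ψ v * ℓ v := ⟨_, rfl⟩
  have hsd : ∀ v, HasFDerivAt s (ψ v • Λ + ℓ v • fderiv ℝ ψ v) v := by
    intro v
    have h1 := (hψd v).mul (hℓd v)
    rw [hs, hψd']
    exact h1
  have hsd' : ∀ v, fderiv ℝ s v = ψ v • Λ + ℓ v • fderiv ℝ ψ v := fun v => (hsd v).fderiv
  have hsb : ∀ v, |s v| ≤ 2 * (R / r) := by
    intro v
    by_cases hv : ‖v - c‖ ≤ R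
    · rw [hs]
      simp only [abs_mul]
      calc |ψ v| * |ℓ v| ≤ 1 * |ℓ v| := mul_le_mul_of_nonneg_right (hψb v) (abs_nonneg _)
        _ ≤ 2 * (R / r) := by rw [one_mul]; exact hℓb v hv
    · push Not at hv
      have h1 := (hψ0 v (by nlinarith)).1
      rw [hs]
      simp only [h1, zero_mul, abs_zero]
      positivity
  have hsn : ∀ v, ‖fderiv ℝ s v‖ ≤ 4 * C * (1 / r) := by
    intro v
    by_cases hv : ‖v - c‖ ≤ R
    · rw [hsd']
      refine (norm_add_le _ _).trans ?_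
      rw [norm_smul, norm_smul, Real.norm_eq_abs, Real.norm_eq_abs]
      have h1 : |ψ v| * ‖Λ‖ ≤ 1 * (1 / r) :=
        mul_le_mul (hψb v) hΛn (norm_nonneg _) zero_le_one
      have h2 : |ℓ v| * ‖fderiv ℝ ψ v‖ ≤ 2 * (R / r) * (C * (1 / R)) :=
        mul_le_mul (hℓb v hv) (hψn v) (norm_nonneg _) (by positivity)
      have h3 : 2 * (R / r) * (C * (1 / R)) = 2 * C * (1 / r) := by
        field_simp
      have h4 : 1 * (1 / r) ≤ C * (1 / r) := mul_le_mul_of_nonneg_right hC (by positivity)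
      rw [h3] at h2
      have h5 : 0 ≤ C * (1 / r) := by positivity
      nlinarith
    · push Not at hv
      obtain ⟨h1, h2⟩ := hψ0 v (by nlinarith)
      rw [hsd', h1, h2, zero_smul, smul_zero, add_zero, norm_zero]
      positivity
  have hsl0 : ∀ v v', ‖v - c‖ ≤ R →
      ‖fderiv ℝ s v - fderiv ℝ s v'‖ ≤ 4 * C * (1 / (R * r)) * ‖v - v'‖ := by
    intro v v' hv
    have h0 : fderiv ℝ s v - fderiv ℝ s v' = (ψ v - ψ v') • Λ +
        (ℓ v • (fderiv ℝ ψ v - fderiv ℝ ψ v') + (ℓ v - ℓ v') • fderiv ℝ ψ v') := by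
      rw [hsd', hsd']
      module
    rw [h0]
    refine (norm_add_le _ _).trans ((add_le_add le_rfl (norm_add_le _ _)).trans ?_)
    rw [norm_smul, norm_smul, norm_smul, Real.norm_eq_abs, Real.norm_eq_abs, Real.norm_eq_abs]
    have hn := norm_nonneg (v - v')
    have h1 : |ψ v - ψ v'| * ‖Λ‖ ≤ C * (1 / R) * ‖v - v'‖ * (1 / r) :=
      mul_le_mul (hψL v v') hΛn (norm_nonneg _) (by positivity)
    have h2 : |ℓ v| * ‖fderiv ℝ ψ v - fderiv ℝ ψ v'‖ ≤
        2 * (R / r) * (C * (1 / R) ^ 2 * ‖v - v'‖) :=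
      mul_le_mul (hℓb v hv) (hψl v v') (norm_nonneg _) (by positivity)
    have h3 : |ℓ v - ℓ v'| * ‖fderiv ℝ ψ v'‖ ≤ 1 / r * ‖v - v'‖ * (C * (1 / R)) :=
      mul_le_mul (hℓL v v') (hψn v') (norm_nonneg _) (by positivity)
    have e1 : C * (1 / R) * ‖v - v'‖ * (1 / r) = C * (1 / (R * r)) * ‖v - v'‖ := by
      field_simp
    have e2 : 2 * (R / r) * (C * (1 / R) ^ 2 * ‖v - v'‖) =
        2 * (C * (1 / (R * r)) * ‖v - v'‖) := by
      field_simp
    have e3 : 1 / r * ‖v - v'‖ * (C * (1 / R)) = C * (1 / (R * r)) * ‖v - v'‖ := by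
      field_simp
    rw [e1] at h1
    rw [e2] at h2
    rw [e3] at h3
    linarith
  have hsl : ∀ v v', ‖fderiv ℝ s v - fderiv ℝ s v'‖ ≤ 4 * C * (1 / (R * r)) * ‖v - v'‖ := by
    intro v v'
    by_cases hv : ‖v - c‖ ≤ R
    · exact hsl0 v v' hv
    · by_cases hv' : ‖v' - c‖ ≤ R
      · rw [norm_sub_rev, norm_sub_rev v v']
        exact hsl0 v' v hv'
      · push Not at hv hv'
        obtain ⟨h1, h2⟩ := hψ0 v (by nlinarith)
        obtain ⟨h3, h4⟩ := hψ0 v' (by nlinarith)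
        rw [hsd', hsd', h1, h2, h3, h4, zero_smul, smul_zero, smul_zero, add_zero, sub_self,
          norm_zero]
        positivity
  have hs2 : ContDiff ℝ 2 s := by
    rw [hs, hψ, hℓ]
    exact (hφ2.comp ((contDiff_id.sub contDiff_const).const_smul R⁻¹)).mul
      (contDiff_const.add (Λ.contDiff.comp (contDiff_id.sub contDiff_const)))
  have hud : ∀ v, HasFDerivAt (fun v => s v • w) ((fderiv ℝ s v).smulRight w) v := by
    intro v
    have h1 : HasFDerivAt s (fderiv ℝ s v) v := by rw [hsd']; exact hsd v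
    exact h1.smul_const w
  refine ⟨fun v => s v • w, hs2.smul contDiff_const, ?_, ?_, ?_, ?_, ?_, ?_⟩
  · intro v
    show ‖s v • w‖ ≤ _
    rw [norm_smul, Real.norm_eq_abs]
    refine mul_le_mul_of_nonneg_right ((hsb v).trans ?_) (norm_nonneg _)
    have : 0 < R / r := by positivity
    nlinarith
  · intro v
    rw [(hud v).fderiv, ContinuousLinearMap.norm_smulRight_apply]
    exact mul_le_mul_of_nonneg_right (hsn v) (norm_nonneg _)
  · intro v v'
    rw [(hud v).fderiv, (hud v').fderiv]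
    have h1 : (fderiv ℝ s v).smulRight w - (fderiv ℝ s v').smulRight w =
        (fderiv ℝ s v - fderiv ℝ s v').smulRight w := by
      ext y
      simp [sub_smul]
    rw [h1, ContinuousLinearMap.norm_smulRight_apply]
    have h2 := mul_le_mul_of_nonneg_right (hsl v v') (norm_nonneg w)
    refine h2.trans (le_of_eq ?_)
    ring
  · show s c • w = w
    have h1 : s c = 1 := by
      rw [hs, hψ, hℓ]
      simp only [sub_self, smul_zero, map_zero, add_zero, mul_one]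
      exact hφ1 0 (by rw [norm_zero]; norm_num)
    rw [h1, one_smul]
  · show s v1 • w = 0
    have h1 : ℓ v1 = 0 := by
      rw [hℓ, hΛ]
      simp only [ContinuousLinearMap.smul_apply, innerSL_apply_apply, smul_eq_mul]
      rw [real_inner_self_eq_norm_sq, hv1]
      field_simp
      ring
    rw [hs]
    simp only [h1, mul_zero, zero_smul]
  · intro v hv
    by_contra hne
    push Not at hne
    apply hv
    have h1 := (hψ0 v (by nlinarith)).1
    show s v • w = 0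
    rw [hs]
    simp only [h1, zero_mul, zero_smul]

/-- closing by a bump which moves `q = f^m y` to `y` and does not move the intermediate visits -/
theorem close_bump {d : ℕ} {M : Type} [TopologicalSpace M] (f : M → M) (κ : Ch d M)
    (u : E d → E d) (y q : M) (m : ℕ) (hy : y ∈ κ.source) (hq : q ∈ κ.source) (hm : 1 ≤ m)
    (hqm : f^[m] y = q) (huq : u (κ q) = κ y - κ q)
    (hN : ∀ l, 1 ≤ l → l < m → f^[l] y ∈ κ.source → u (κ (f^[l] y)) = 0) :
    (f ∘ bmp κ u)^[m] q = q := by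
  have hmem : ∀ z ∈ κ.source, bmp κ u z = κ.symm (κ z + u (κ z)) := by
    intro z hz
    unfold bmp
    rw [if_pos hz]
  have h0 : ∀ l, 1 ≤ l → l < m → bmp κ u (f^[l] y) = f^[l] y := by
    intro l hl hlm
    by_cases hs : f^[l] y ∈ κ.source
    · rw [hmem _ hs, hN l hl hlm hs, add_zero, κ.left_inv hs]
    · unfold bmp
      rw [if_neg hs]
  obtain ⟨k, rfl⟩ : ∃ k, m = k + 1 := ⟨m - 1, by omega⟩
  have hG : (f ∘ bmp κ u) q = f y := by
    rw [comp_apply, hmem q hq, huq]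
    have : κ q + (κ y - κ q) = κ y := by abel
    rw [this, κ.left_inv hy]
  have hit : ∀ l, l ≤ k → (f ∘ bmp κ u)^[l] (f y) = f^[l + 1] y := by
    intro l
    induction l with
    | zero => intro _; rfl
    | succ l ih =>
      intro hl
      rw [iterate_succ_apply', ih (by omega), iterate_succ_apply' f (l + 1) y, comp_apply,
        h0 (l + 1) (by omega) (by omega)]
  rw [iterate_succ_apply, hG, hit k le_rfl]
  exact hqm

end Pool.Agent.H63.GR
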