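import Mathlib

/-! Golden returns (problem MP_43af95_an): the exponent `log₂ ((1 + √5) / 2)`. -/

set_option autoImplicit false

open Real

namespace Pool.Agent.H63.GR

noncomputable section

/-- the exponent `log₂ ((1 + √5) / 2) = 0.694…` -/
def gs : ℝ := Real.logb 2 ((1 + √5) / 2)

theorem gr_pos : (1:ℝ) < (1 + √5) / 2 := by
  have : (1:ℝ) < √5 := by
    rw [Real.lt_sqrt (by norm_num)]
    norm_num
  linarith

theorem gr_lt : (1 + √5) / 2 < (2:ℝ) := by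
  have : √5 < (3:ℝ) := by
    rw [Real.sqrt_lt' (by norm_num)]
    norm_num
  linarith

theorem gs_pos : 0 < gs := Real.logb_pos (by norm_num) gr_pos

theorem gs_lt : gs < 1 := by
  have h := Real.logb_lt_logb (b := 2) (by norm_num) (by have := gr_pos; linarith) gr_lt
  rw [Real.logb_self_eq_one (by norm_num)] at h
  exact h

/-- `z = 2^{-s} = 2 / (1 + √5)` -/
def gz : ℝ := (1 / 2 : ℝ) ^ gs

theorem gz_pos : 0 < gz := Real.rpow_pos_of_pos (by norm_num) _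

theorem gz_eq : gz = ((1 + √5) / 2)⁻¹ := by
  unfold gz
  rw [one_div, Real.inv_rpow (by norm_num)]
  congr 1
  unfold gs
  exact Real.rpow_logb (by norm_num) (by norm_num) (by have := gr_pos; linarith)

theorem gz_quad : gz + gz ^ 2 = 1 := by
  rw [gz_eq]
  have h1 := gr_pos
  have h2 : (√5) ^ 2 = (5:ℝ) := Real.sq_sqrt (by norm_num)
  have h3 : (1 + √5) / 2 ≠ (0:ℝ) := by linarith
  field_simp
  nlinarith

theorem gz_le : gz ≤ 1 := by
  have := gz_quad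
  have := sq_nonneg gz
  linarith

theorem quarter : (1 / 4 : ℝ) ^ gs = gz ^ 2 := by
  unfold gz
  rw [← Real.rpow_natCast, ← Real.rpow_mul (by norm_num), mul_comm, Real.rpow_mul (by norm_num)]
  norm_num

/-- the inequality which governs the descent -/
theorem key_ineq (m p p2 : ℕ) (hp : 2 * p ≤ m) (hp2 : 2 * p2 + p ≤ m) :
    (p : ℝ) ^ gs + (p2 : ℝ) ^ gs ≤ (m : ℝ) ^ gs := by
  rcases Nat.eq_zero_or_pos m with rfl | hm
  · have h1 : p = 0 := by omega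
    have h2 : p2 = 0 := by omega
    subst h1 h2
    have h3 : ((0:ℕ) : ℝ) ^ gs = 0 := by
      rw [Nat.cast_zero]
      exact Real.zero_rpow gs_pos.ne'
    rw [h3]
    norm_num
  · have hm0 : (0:ℝ) < m := by exact_mod_cast hm
    have hpm : (2:ℝ) * p ≤ m := by exact_mod_cast hp
    have hpm2 : (2:ℝ) * p2 + p ≤ m := by exact_mod_cast hp2
    have hp0 : (0:ℝ) ≤ p := Nat.cast_nonneg _
    have hp20 : (0:ℝ) ≤ p2 := Nat.cast_nonneg _
    set t : ℝ := 2 * p / m - 1 with ht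
    have ht1 : t ≤ 0 := by
      rw [ht, sub_nonpos, div_le_one hm0]
      exact hpm
    have ht2 : -1 ≤ t := by
      rw [ht]
      have : 0 ≤ 2 * (p:ℝ) / m := by positivity
      linarith
    have hs0 := gs_pos.le
    have hs1 := gs_lt.le
    have hz := gz_pos
    have hzz : gz ^ 2 ≤ gz := by
      have := gz_le
      nlinarith
    have hms : 0 < (m:ℝ) ^ gs := Real.rpow_pos_of_pos hm0 _
    have e1 : (p:ℝ) = m * ((1 / 2) * (1 + t)) := by
      rw [ht]; field_simp; ring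
    have e2 : (p2:ℝ) ≤ m * ((1 / 4) * (1 + -t)) := by
      have : (m:ℝ) * ((1 / 4) * (1 + -t)) = (m - p) / 2 := by
        rw [ht]; field_simp; ring
      rw [this]
      linarith
    have f1 : (p:ℝ) ^ gs ≤ (m:ℝ) ^ gs * (gz * (1 + gs * t)) := by
      have h1 : (p:ℝ) ^ gs = (m:ℝ) ^ gs * (gz * (1 + t) ^ gs) := by
        rw [e1, Real.mul_rpow hm0.le (by nlinarith), Real.mul_rpow (by norm_num) (by linarith)]
        rfl
      rw [h1]
      refine mul_le_mul_of_nonneg_left (mul_le_mul_of_nonneg_left ?_ hz.le) hms.le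
      exact _root_.rpow_one_add_le_one_add_mul_self ht2 hs0 hs1
    have f2 : (p2:ℝ) ^ gs ≤ (m:ℝ) ^ gs * (gz ^ 2 * (1 + gs * (-t))) := by
      have h1 : (p2:ℝ) ^ gs ≤ (m:ℝ) ^ gs * (gz ^ 2 * (1 + -t) ^ gs) := by
        refine (Real.rpow_le_rpow hp20 e2 hs0).trans (le_of_eq ?_)
        rw [Real.mul_rpow hm0.le (by nlinarith), Real.mul_rpow (by norm_num) (by linarith),
          quarter]
      refine h1.trans ?_
      refine mul_le_mul_of_nonneg_left (mul_le_mul_of_nonneg_left ?_ (by positivity)) hms.le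
      exact _root_.rpow_one_add_le_one_add_mul_self (by linarith) hs0 hs1
    have f3 : gz * (1 + gs * t) + gz ^ 2 * (1 + gs * (-t)) ≤ 1 := by
      have h1 : gz * (1 + gs * t) + gz ^ 2 * (1 + gs * (-t)) =
          (gz + gz ^ 2) + gs * t * (gz - gz ^ 2) := by ring
      rw [h1, gz_quad]
      have h2 : gs * t ≤ 0 := mul_nonpos_of_nonneg_of_nonpos hs0 ht1
      have h3 : gs * t * (gz - gz ^ 2) ≤ 0 :=
        mul_nonpos_of_nonpos_of_nonneg h2 (by linarith)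
      linarith
    calc (p : ℝ) ^ gs + (p2 : ℝ) ^ gs
        ≤ (m:ℝ) ^ gs * (gz * (1 + gs * t)) + (m:ℝ) ^ gs * (gz ^ 2 * (1 + gs * (-t))) :=
          add_le_add f1 f2
      _ = (m:ℝ) ^ gs * (gz * (1 + gs * t) + gz ^ 2 * (1 + gs * (-t))) := by ring
      _ ≤ (m:ℝ) ^ gs * 1 := mul_le_mul_of_nonneg_left f3 hms.le
      _ = (m:ℝ) ^ gs := mul_one _

/-- a gap at most one half -/
theorem half_ineq (m p : ℕ) (hp1 : 1 ≤ p) (hp : 2 * p ≤ m) :
    (p : ℝ) ^ gs + gz ≤ (m : ℝ) ^ gs := by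
  have hp0 : (1:ℝ) ≤ p := by exact_mod_cast hp1
  have hpm : (2:ℝ) * p ≤ m := by exact_mod_cast hp
  have h1 : ((2:ℝ) * p) ^ gs ≤ (m:ℝ) ^ gs := Real.rpow_le_rpow (by positivity) hpm gs_pos.le
  have h2 : ((2:ℝ) * p) ^ gs = gz⁻¹ * (p:ℝ) ^ gs := by
    rw [Real.mul_rpow (by norm_num) (by positivity)]
    congr 1
    unfold gz
    rw [one_div, Real.inv_rpow (by norm_num), inv_inv]
  have h3 : (1:ℝ) ≤ (p:ℝ) ^ gs := Real.one_le_rpow hp0 gs_pos.le
  have h4 : gz⁻¹ = 1 + gz := by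
    have h5 := gz_quad
    have h6 := gz_pos
    field_simp
    linarith
  rw [h2, h4] at h1
  have h5 := gz_pos
  nlinarith

/-- The threshold for returns of time `m`. -/
def Th (c0 B : ℝ) (m : ℕ) : ℝ := c0 * Real.exp (-(B * (m:ℝ) ^ gs))

theorem Th_pos {c0 : ℝ} (hc : 0 < c0) (B : ℝ) (m : ℕ) : 0 < Th c0 B m := by
  unfold Th
  positivity

theorem Th_mul {c0 B : ℝ} (hc : 0 < c0) (hB : 0 ≤ B) (m p p2 : ℕ) (hp : 2 * p ≤ m)
    (hp2 : 2 * p2 + p ≤ m) : c0 * Th c0 B m ≤ Th c0 B p * Th c0 B p2 := by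
  unfold Th
  have h1 := key_ineq m p p2 hp hp2
  have h2 : Real.exp (-(B * (m:ℝ) ^ gs)) ≤
      Real.exp (-(B * (p:ℝ) ^ gs)) * Real.exp (-(B * (p2:ℝ) ^ gs)) := by
    rw [← Real.exp_add]
    apply Real.exp_le_exp.2
    have h3 := mul_le_mul_of_nonneg_left h1 hB
    linarith
  calc c0 * (c0 * Real.exp (-(B * (m:ℝ) ^ gs)))
      ≤ c0 * (c0 * (Real.exp (-(B * (p:ℝ) ^ gs)) * Real.exp (-(B * (p2:ℝ) ^ gs)))) := by
        gcongr
    _ = _ := by ring

theorem Th_half {c0 B δ : ℝ} (hc : 0 < c0) (hB : 0 ≤ B) (hδ : Real.exp (-(B * gz)) ≤ δ)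
    (m p : ℕ) (hp1 : 1 ≤ p) (hp : 2 * p ≤ m) : Th c0 B m ≤ δ * Th c0 B p := by
  unfold Th
  have h1 := half_ineq m p hp1 hp
  have h2 : Real.exp (-(B * (m:ℝ) ^ gs)) ≤ δ * Real.exp (-(B * (p:ℝ) ^ gs)) := by
    refine le_trans ?_ (mul_le_mul_of_nonneg_right hδ (Real.exp_pos _).le)
    rw [← Real.exp_add]
    apply Real.exp_le_exp.2
    have h3 := mul_le_mul_of_nonneg_left h1 hB
    linarith
  calc c0 * Real.exp (-(B * (m:ℝ) ^ gs)) ≤ c0 * (δ * Real.exp (-(B * (p:ℝ) ^ gs))) := by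
        gcongr
    _ = _ := by ring

theorem Th_le_one {c0 B : ℝ} (hc : 0 < c0) (hB : 0 ≤ B) (m : ℕ) (hm : 1 ≤ m) :
    Th c0 B m ≤ Th c0 B 1 := by
  unfold Th
  have h3 : (1:ℝ) ≤ (m:ℝ) ^ gs := Real.one_le_rpow (by exact_mod_cast hm) gs_pos.le
  have h4 : ((1:ℕ):ℝ) ^ gs = 1 := by rw [Nat.cast_one, Real.one_rpow]
  rw [h4]
  gcongr

end

end Pool.Agent.H63.GR
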