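import Pool.Agent.H63.GR.Bump
import Pool.Agent.H63.GR.Num
import Pool.Agent.H88.CM.AREG

/-! Golden returns (problem MP_43af95_an): the descent on the return time. -/

set_option autoImplicit false

open Pool.Agent.H88.CL Pool.Agent.H88.CM Set Function Topology Metric Filter

namespace Pool.Agent.H63.GR

/-- closing near a point which returns within `exp (- B m ^ s)` after time `m`,
`s = log₂ ((1 + √5) / 2)` -/
def T_FSTG : Prop := ∀ (d : ℕ) (ε ρ0 : ℝ), 0 < ε → 0 < ρ0 → ρ0 ≤ 1 → ∃ B : ℝ, 0 < B ∧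
  ∀ (M : Type) [TopologicalSpace M] (f : M → M) (κ : Ch d M) (x : E d),
  closedBall x ρ0 ⊆ κ.target → ∀ (y : M) (m : ℕ), 1 ≤ m → y ∈ κ.source → ‖κ y - x‖ ≤ ρ0 / 8 →
    f^[m] y ∈ κ.source → ‖κ (f^[m] y) - κ y‖ ≤ Real.exp (-(B * (m:ℝ) ^ gs)) →
    ∃ (u : E d → E d) (q : M) (m' : ℕ), Bp d (closedBall x ρ0) ε ε ε u ∧ 1 ≤ m' ∧
      q ∈ κ.source ∧ ‖κ q - κ y‖ ≤ ε ∧ (f ∘ bmp κ u)^[m'] q = q

theorem exists_B (c0 δ σ : ℝ) (hc : 0 < c0) (hδ : 0 < δ) (hσ : 0 < σ) :
    ∃ B : ℝ, 0 < B ∧ Real.exp (-(B * gz)) ≤ δ ∧ Th c0 B 1 ≤ σ := by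
  refine ⟨max 1 (max (-Real.log δ / gz) (-Real.log (σ / c0))), by positivity, ?_, ?_⟩
  · have h1 : -Real.log δ / gz ≤ max 1 (max (-Real.log δ / gz) (-Real.log (σ / c0))) :=
      (le_max_left _ _).trans (le_max_right _ _)
    rw [div_le_iff₀ gz_pos] at h1
    calc Real.exp (-(max 1 (max (-Real.log δ / gz) (-Real.log (σ / c0))) * gz))
        ≤ Real.exp (Real.log δ) := Real.exp_le_exp.2 (by linarith)
      _ = δ := Real.exp_log hδ
  · have h1 : -Real.log (σ / c0) ≤ max 1 (max (-Real.log δ / gz) (-Real.log (σ / c0))) :=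
      (le_max_right _ _).trans (le_max_right _ _)
    unfold Th
    have h4 : ((1:ℕ):ℝ) ^ gs = 1 := by rw [Nat.cast_one, Real.one_rpow]
    rw [h4, mul_one]
    calc c0 * Real.exp (-max 1 (max (-Real.log δ / gz) (-Real.log (σ / c0))))
        ≤ c0 * Real.exp (Real.log (σ / c0)) :=
          mul_le_mul_of_nonneg_left (Real.exp_le_exp.2 (by linarith)) hc.le
      _ = σ := by
          rw [Real.exp_log (by positivity)]
          field_simp

theorem pf_FSTG (hO : T_OBCM) (hB : T_BMP) : T_FSTG := by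
  classical
  intro d ε ρ0 hε hρ0 hρ1
  obtain ⟨C1, hC1, hbf⟩ := bump_fix hB d
  obtain ⟨C2, hC2, hob⟩ := hO d
  obtain ⟨C, hCd⟩ : ∃ C : ℝ, C = C1 + C2 := ⟨_, rfl⟩
  have hC : 1 ≤ C := by linarith
  have hC0 : 0 < C := by linarith
  have hC1C : C1 ≤ C := by linarith
  have hC2C : C2 ≤ C := by linarith
  obtain ⟨e, he⟩ : ∃ e : ℝ, e = min ε 1 := ⟨_, rfl⟩
  have he0 : 0 < e := by rw [he]; exact lt_min hε one_pos
  have he1 : e ≤ 1 := by rw [he]; exact min_le_right _ _
  have heε : e ≤ ε := by rw [he]; exact min_le_left _ _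
  obtain ⟨c0, hc0⟩ : ∃ c0 : ℝ, c0 = 8 * C / e := ⟨_, rfl⟩
  have hc0pos : 0 < c0 := by rw [hc0]; positivity
  have hc0e : c0 * e = 8 * C := by rw [hc0]; field_simp
  have hc08 : 8 ≤ c0 := by
    rw [hc0, le_div_iff₀ he0]
    nlinarith
  obtain ⟨R0, hR0⟩ : ∃ R0 : ℝ, R0 = ρ0 / 4 := ⟨_, rfl⟩
  have hR0pos : 0 < R0 := by rw [hR0]; positivity
  obtain ⟨δ, hδ⟩ : ∃ δ : ℝ, δ = e * ρ0 / (8 * C) := ⟨_, rfl⟩
  have hδ0 : 0 < δ := by rw [hδ]; positivity
  have hδC : 2 * C * δ = e * R0 := by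
    rw [hδ, hR0]; field_simp; ring
  have hδ2 : δ ≤ 1 / 2 := by
    have h1 : e * R0 ≤ 1 := by
      have h2 : R0 ≤ 1 := by rw [hR0]; linarith
      nlinarith
    nlinarith
  obtain ⟨σ, hσ⟩ : ∃ σ : ℝ, σ = e * ρ0 ^ 2 / (64 * C) := ⟨_, rfl⟩
  have hσ0 : 0 < σ := by rw [hσ]; positivity
  have hσC : C * σ = e * R0 ^ 2 / 4 := by
    rw [hσ, hR0]; field_simp; ring
  have hσle : σ ≤ C * σ := by nlinarith
  have hR0sq : R0 ^ 2 ≤ R0 := by
    have h2 : R0 ≤ 1 := by rw [hR0]; linarith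
    nlinarith
  have hR01 : R0 ≤ 1 / 4 := by rw [hR0]; linarith
  have heR : e * R0 ^ 2 ≤ R0 := by
    have : e * R0 ^ 2 ≤ 1 * R0 ^ 2 := mul_le_mul_of_nonneg_right he1 (by positivity)
    linarith
  have heR' : e * R0 ^ 2 ≤ e * R0 := mul_le_mul_of_nonneg_left hR0sq he0.le
  obtain ⟨B, hBpos, hBδ, hBσ⟩ := exists_B c0 δ σ hc0pos hδ0 hσ0
  obtain ⟨Θ, hΘ⟩ : ∃ Θ : ℕ → ℝ, Θ = Th c0 B := ⟨_, rfl⟩
  have hΘpos : ∀ m, 0 < Θ m := by rw [hΘ]; exact Th_pos hc0pos B
  have hΘmul : ∀ m p p2 : ℕ, 2 * p ≤ m → 2 * p2 + p ≤ m → c0 * Θ m ≤ Θ p * Θ p2 := by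
    rw [hΘ]; exact Th_mul hc0pos hBpos.le
  have hΘhalf : ∀ m p : ℕ, 1 ≤ p → 2 * p ≤ m → Θ m ≤ δ * Θ p := by
    rw [hΘ]; exact Th_half hc0pos hBpos.le hBδ
  have hΘhalf2 : ∀ m p : ℕ, 1 ≤ p → 2 * p ≤ m → 2 * Θ m ≤ Θ p := by
    intro m p h1 h2
    have h3 := hΘhalf m p h1 h2
    have h4 := mul_le_mul_of_nonneg_right hδ2 (hΘpos p).le
    linarith
  have hΘone : ∀ m : ℕ, 1 ≤ m → Θ m ≤ Θ 1 := by
    rw [hΘ]; exact Th_le_one hc0pos hBpos.le
  have hΘσ : Θ 1 ≤ σ := by rw [hΘ]; exact hBσ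
  have key : ∀ (M : Type) [TopologicalSpace M] (f : M → M) (κ : Ch d M) (x : E d),
      closedBall x ρ0 ⊆ κ.target → ∀ m : ℕ, 1 ≤ m → ∀ y : M, y ∈ κ.source →
      ‖κ y - x‖ + (4 * Θ 1 - 2 * Θ m) ≤ ρ0 / 4 → f^[m] y ∈ κ.source →
      ‖κ (f^[m] y) - κ y‖ ≤ Θ m →
      ∃ (u : E d → E d) (q : M) (m' : ℕ), Bp d (closedBall x ρ0) e e e u ∧ 1 ≤ m' ∧
        q ∈ κ.source ∧ ‖κ q - κ y‖ ≤ 4 * Θ 1 - 2 * Θ m ∧ (f ∘ bmp κ u)^[m'] q = q := by
    intro M _ f κ x hball m
    induction m using Nat.strong_induction_on with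
    | _ m ih =>
      intro hm y hy hyx hfy hDm
      have hΘm := hΘpos m
      have hΘm1 := hΘone m hm
      -- the descent
      have desc : ∀ (y' : M) (m' : ℕ), 1 ≤ m' → 2 * m' ≤ m → y' ∈ κ.source →
          ‖κ y' - κ y‖ ≤ Θ m' → f^[m'] y' ∈ κ.source → ‖κ (f^[m'] y') - κ y'‖ ≤ Θ m' →
          ∃ (u : E d → E d) (q : M) (m' : ℕ), Bp d (closedBall x ρ0) e e e u ∧ 1 ≤ m' ∧
            q ∈ κ.source ∧ ‖κ q - κ y‖ ≤ 4 * Θ 1 - 2 * Θ m ∧ (f ∘ bmp κ u)^[m'] q = q := by
        intro y' m' hm' h2m hy' hyy hfy' hD'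
        have h1 := hΘhalf2 m m' hm' h2m
        have h2 : ‖κ y' - x‖ ≤ ‖κ y' - κ y‖ + ‖κ y - x‖ := by
          have : κ y' - x = (κ y' - κ y) + (κ y - x) := by abel
          rw [this]
          exact norm_add_le _ _
        obtain ⟨u, q, m'', hu, hm'', hqs, hq', hper⟩ := ih m' (by omega) hm' y' hy'
          (by linarith) hfy' hD'
        refine ⟨u, q, m'', hu, hm'', hqs, ?_, hper⟩
        have h3 : κ q - κ y = (κ q - κ y') + (κ y' - κ y) := by abel
        rw [h3]
        refine (norm_add_le _ _).trans ((add_le_add hq' hyy).trans ?_)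
        linarith
      obtain ⟨q, hq⟩ : ∃ q : M, q = f^[m] y := ⟨_, rfl⟩
      rw [← hq] at hfy hDm
      obtain ⟨D, hD⟩ : ∃ D : ℝ, D = ‖κ q - κ y‖ := ⟨_, rfl⟩
      rw [← hD] at hDm
      have hD0 : 0 ≤ D := by rw [hD]; exact norm_nonneg _
      have hDW : D ≤ 4 * Θ 1 - 2 * Θ m := by linarith
      have hDσ : D ≤ σ := hDm.trans (hΘm1.trans hΘσ)
      have hDR : D ≤ R0 := by
        have h1 : C * σ ≤ R0 / 4 := by rw [hσC]; linarith
        linarith
      have hCD : C * D ≤ e * R0 ^ 2 := by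
        have h1 : C * D ≤ C * σ := mul_le_mul_of_nonneg_left hDσ hC0.le
        rw [hσC] at h1
        have : 0 ≤ e * R0 ^ 2 := by positivity
        linarith
      have hqx : ‖κ q - x‖ ≤ ρ0 / 2 := by
        have e1 : κ q - x = (κ q - κ y) + (κ y - x) := by abel
        have h1 : 0 ≤ 4 * Θ 1 - 2 * Θ m := by linarith
        rw [e1]
        refine (norm_add_le _ _).trans ?_
        rw [← hD]
        rw [hR0] at hDR
        linarith
      -- no intermediate visit
      by_cases hS : ∀ l, 1 ≤ l → l < m → f^[l] y ∈ κ.source → R0 < ‖κ (f^[l] y) - κ q‖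
      · obtain ⟨u, hu, hper⟩ := hob M f κ x ρ0 y q m R0 hball hy hfy hqx hm hq.symm hR0pos
          (by rw [hR0]; linarith) hS
        rw [← hD] at hu
        refine ⟨u, q, m, hu.mono subset_rfl ?_ ?_ ?_, hm, hfy, by rw [← hD]; exact hDW, hper⟩
        · have : D ≤ C * D := by nlinarith
          nlinarith
        · rw [div_le_iff₀ hR0pos]
          have : C2 * D ≤ C * D := mul_le_mul_of_nonneg_right hC2C hD0
          linarith
        · rw [div_le_iff₀ (by positivity)]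
          have : C2 * D ≤ C * D := mul_le_mul_of_nonneg_right hC2C hD0
          linarith
      push Not at hS
      -- the nearest intermediate visit
      obtain ⟨l0, hl01, hl0m, hl0s, hl0R⟩ := hS
      obtain ⟨S, hSd⟩ : ∃ S : Finset ℕ, S = (Finset.range m).filter
        (fun l => 1 ≤ l ∧ f^[l] y ∈ κ.source ∧ ‖κ (f^[l] y) - κ q‖ ≤ R0) := ⟨_, rfl⟩
      have hmem : ∀ l, l ∈ S ↔ l < m ∧ 1 ≤ l ∧ f^[l] y ∈ κ.source ∧
          ‖κ (f^[l] y) - κ q‖ ≤ R0 := by
        intro l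
        rw [hSd, Finset.mem_filter, Finset.mem_range]
      obtain ⟨a, haS, hamin⟩ := S.exists_min_image (fun l => ‖κ (f^[l] y) - κ q‖)
        ⟨l0, (hmem l0).2 ⟨hl0m, hl01, hl0s, hl0R⟩⟩
      obtain ⟨ham, ha1, has, haR⟩ := (hmem a).1 haS
      obtain ⟨r1, hr1⟩ : ∃ r1 : ℝ, r1 = ‖κ (f^[a] y) - κ q‖ := ⟨_, rfl⟩
      have hr10 : 0 ≤ r1 := by rw [hr1]; exact norm_nonneg _
      obtain ⟨p, hp⟩ : ∃ p : ℕ, p = min a (m - a) := ⟨_, rfl⟩
      have hp1 : 1 ≤ p := by rw [hp]; exact le_min ha1 (by omega)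
      have hp2 : 2 * p ≤ m := by
        have h1 := min_le_left a (m - a)
        have h2 := min_le_right a (m - a)
        omega
      have hDp : D ≤ Θ p / 2 := by
        have := hΘhalf2 m p hp1 hp2
        linarith
      have hay : ‖κ (f^[a] y) - κ y‖ ≤ r1 + D := by
        have e1 : κ (f^[a] y) - κ y = (κ (f^[a] y) - κ q) + (κ q - κ y) := by abel
        rw [e1, hr1, hD]
        exact norm_add_le _ _
      have hiter : ∀ l, l ≤ m → f^[m - l] (f^[l] y) = q := by
        intro l hl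
        rw [← iterate_add_apply, Nat.sub_add_cancel hl, hq]
      by_cases h1 : 2 * r1 ≤ Θ p
      · rcases le_total a (m - a) with h2 | h2
        · have hpa : p = a := by rw [hp]; exact min_eq_left h2
          refine desc y p hp1 hp2 hy ?_ (by rw [hpa]; exact has) ?_
          · rw [sub_self, norm_zero]; exact (hΘpos p).le
          · rw [hpa] at h1 hDp ⊢
            linarith
        · have hpa : p = m - a := by rw [hp]; exact min_eq_right h2
          refine desc (f^[a] y) p hp1 hp2 has (by linarith) ?_ ?_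
          · rw [hpa, hiter a ham.le]; exact hfy
          · rw [hpa, hiter a ham.le, norm_sub_rev, ← hr1, ← hpa]
            linarith
      push Not at h1
      have hr1pos : 0 < r1 := by
        have := hΘpos p
        linarith
      -- the bump vanishing at the nearest visit
      have bc : ∀ R : ℝ, r1 ≤ R → R ≤ R0 → C * D ≤ e * (R * r1) →
          (∀ l, 1 ≤ l → l < m → f^[l] y ∈ κ.source → f^[l] y = f^[a] y ∨
            R ≤ ‖κ (f^[l] y) - κ q‖) →
          ∃ (u : E d → E d) (q : M) (m' : ℕ), Bp d (closedBall x ρ0) e e e u ∧ 1 ≤ m' ∧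
            q ∈ κ.source ∧ ‖κ q - κ y‖ ≤ 4 * Θ 1 - 2 * Θ m ∧ (f ∘ bmp κ u)^[m'] q = q := by
        intro R hrR hRR0 hcost hvis
        have hRpos : 0 < R := lt_of_lt_of_le hr1pos hrR
        have hR1 : R ≤ 1 := by linarith
        obtain ⟨u, hu1, hu2, hu3, hu4, hu5, hu6, hu7⟩ := hbf (κ q) (κ (f^[a] y)) (κ y - κ q) r1 R
          hr1pos hrR hr1.symm
        rw [norm_sub_rev, ← hD] at hu2 hu3 hu4
        have hcost1 : C1 * D ≤ e * (R * r1) :=
          (mul_le_mul_of_nonneg_right hC1C hD0).trans hcost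
        have hg : C1 * (1 / (R * r1)) * D ≤ e := by
          have : C1 * (1 / (R * r1)) * D = C1 * D / (R * r1) := by ring
          rw [this, div_le_iff₀ (by positivity)]
          exact hcost1
        have hg0 : 0 ≤ C1 * (1 / (R * r1)) * D := by positivity
        have hb : C1 * (1 / r1) * D ≤ e := by
          have h3 : C1 * (1 / r1) * D = (C1 * (1 / (R * r1)) * D) * R := by
            field_simp
          rw [h3]
          calc (C1 * (1 / (R * r1)) * D) * R ≤ (C1 * (1 / (R * r1)) * D) * 1 :=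
                mul_le_mul_of_nonneg_left hR1 hg0
            _ ≤ e := by rw [mul_one]; exact hg
        have hb0 : 0 ≤ C1 * (1 / r1) * D := by positivity
        have hs : C1 * (R / r1) * D ≤ e := by
          have h3 : C1 * (R / r1) * D = (C1 * (1 / r1) * D) * R := by
            field_simp
          rw [h3]
          calc (C1 * (1 / r1) * D) * R ≤ (C1 * (1 / r1) * D) * 1 :=
                mul_le_mul_of_nonneg_left hR1 hb0
            _ ≤ e := by rw [mul_one]; exact hb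
        refine ⟨u, q, m, ⟨hu1, ?_, fun v => (hu2 v).trans hs, fun v => (hu3 v).trans hb,
          fun v v' => (hu4 v v').trans (mul_le_mul_of_nonneg_right hg (norm_nonneg _))⟩, hm, hfy,
          by rw [← hD]; exact hDW, ?_⟩
        · intro v hv
          have h3 := hu7 v hv
          rw [mem_closedBall, dist_eq_norm]
          have h4 : v - x = (v - κ q) + (κ q - x) := by abel
          have h5 := norm_add_le (v - κ q) (κ q - x)
          rw [h4]
          rw [hR0] at hRR0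
          linarith
        · refine close_bump f κ u y q m hy hfy hm hq.symm hu5 ?_
          intro l hl1 hlm hls
          rcases hvis l hl1 hlm hls with h3 | h3
          · rw [h3]; exact hu6
          · by_contra hne
            have h4 := hu7 _ hne
            linarith
      by_cases hS2 : ∀ l ∈ S, f^[l] y = f^[a] y
      · refine bc R0 (by rw [hr1]; exact haR) le_rfl ?_ ?_
        · have h2 := hΘhalf m p hp1 hp2
          have h3 : D ≤ δ * (2 * r1) :=
            hDm.trans (h2.trans (mul_le_mul_of_nonneg_left h1.le hδ0.le))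
          calc C * D ≤ C * (δ * (2 * r1)) := mul_le_mul_of_nonneg_left h3 hC0.le
            _ = (2 * C * δ) * r1 := by ring
            _ = e * (R0 * r1) := by rw [hδC]; ring
        · intro l hl1 hlm hls
          by_cases h2 : ‖κ (f^[l] y) - κ q‖ ≤ R0
          · exact Or.inl (hS2 l ((hmem l).2 ⟨hlm, hl1, hls, h2⟩))
          · exact Or.inr (le_of_lt (not_le.1 h2))
      push Not at hS2
      -- the second visit
      obtain ⟨l2, hl2S, hl2a⟩ := hS2
      obtain ⟨b, hbS', hbmin⟩ := (S.filter (fun l => f^[l] y ≠ f^[a] y)).exists_min_image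
        (fun l => ‖κ (f^[l] y) - κ q‖) ⟨l2, Finset.mem_filter.2 ⟨hl2S, hl2a⟩⟩
      obtain ⟨hbS, hba⟩ := Finset.mem_filter.1 hbS'
      obtain ⟨hbm, hb1, hbs, hbR⟩ := (hmem b).1 hbS
      obtain ⟨r2, hr2⟩ : ∃ r2 : ℝ, r2 = ‖κ (f^[b] y) - κ q‖ := ⟨_, rfl⟩
      have hr12 : r1 ≤ r2 := by rw [hr1, hr2]; exact hamin b hbS
      have hab : a ≠ b := by
        rintro rfl
        exact hba rfl
      have hby : ‖κ (f^[b] y) - κ y‖ ≤ r2 + D := by
        have e1 : κ (f^[b] y) - κ y = (κ (f^[b] y) - κ q) + (κ q - κ y) := by abel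
        rw [e1, hr2, hD]
        exact norm_add_le _ _
      have hbaD : ‖κ (f^[b] y) - κ (f^[a] y)‖ ≤ r2 + r1 := by
        have e1 : κ (f^[b] y) - κ (f^[a] y) = (κ (f^[b] y) - κ q) - (κ (f^[a] y) - κ q) := by
          abel
        rw [e1, hr2, hr1]
        exact norm_sub_le _ _
      have hiter2 : ∀ l l', l ≤ l' → f^[l' - l] (f^[l] y) = f^[l'] y := by
        intro l l' hl
        rw [← iterate_add_apply, Nat.sub_add_cancel hl]
      obtain ⟨p2, hp21, hp2p, hstep⟩ : ∃ p2 : ℕ, 1 ≤ p2 ∧ 2 * p2 + p ≤ m ∧ (4 * r2 ≤ Θ p2 →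
          ∃ (u : E d → E d) (q : M) (m' : ℕ), Bp d (closedBall x ρ0) e e e u ∧ 1 ≤ m' ∧
            q ∈ κ.source ∧ ‖κ q - κ y‖ ≤ 4 * Θ 1 - 2 * Θ m ∧ (f ∘ bmp κ u)^[m'] q = q) := by
        have hpa : p ≤ a := by rw [hp]; exact min_le_left _ _
        have hpma : p ≤ m - a := by rw [hp]; exact min_le_right _ _
        rcases lt_or_gt_of_ne hab with hlt | hlt
        · rcases le_total (b - a) (m - b) with h2 | h2
          · refine ⟨b - a, by omega, by omega, fun h3 => ?_⟩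
            have h4 := hΘhalf2 m (b - a) (by omega) (by omega)
            refine desc (f^[a] y) (b - a) (by omega) (by omega) has (by linarith) ?_ ?_
            · rw [hiter2 a b hlt.le]; exact hbs
            · rw [hiter2 a b hlt.le]
              linarith
          · refine ⟨m - b, by omega, by omega, fun h3 => ?_⟩
            have h4 := hΘhalf2 m (m - b) (by omega) (by omega)
            refine desc (f^[b] y) (m - b) (by omega) (by omega) hbs (by linarith) ?_ ?_
            · rw [hiter b hbm.le]; exact hfy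
            · rw [hiter b hbm.le, norm_sub_rev, ← hr2]
              linarith
        · rcases le_total b (a - b) with h2 | h2
          · refine ⟨b, by omega, by omega, fun h3 => ?_⟩
            have h4 := hΘhalf2 m b (by omega) (by omega)
            refine desc y b (by omega) (by omega) hy ?_ hbs (by linarith)
            rw [sub_self, norm_zero]
            exact (hΘpos b).le
          · refine ⟨a - b, by omega, by omega, fun h3 => ?_⟩
            have h4 := hΘhalf2 m (a - b) (by omega) (by omega)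
            refine desc (f^[b] y) (a - b) (by omega) (by omega) hbs (by linarith) ?_ ?_
            · rw [hiter2 b a hlt.le]; exact has
            · rw [hiter2 b a hlt.le, norm_sub_rev]
              linarith
      by_cases h2 : 4 * r2 ≤ Θ p2
      · exact hstep h2
      push Not at h2
      refine bc r2 hr12 (by rw [hr2]; exact hbR) ?_ ?_
      · have h3 := hΘmul m p p2 hp2 hp2p
        have h4 : Θ p * Θ p2 ≤ (2 * r1) * (4 * r2) :=
          mul_le_mul h1.le h2.le (hΘpos p2).le (by positivity)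
        have h5 : c0 * D ≤ c0 * Θ m := mul_le_mul_of_nonneg_left hDm hc0pos.le
        have h6 : c0 * D ≤ 8 * (r1 * r2) := by linarith
        have h7 : e * (c0 * D) ≤ e * (8 * (r1 * r2)) := mul_le_mul_of_nonneg_left h6 he0.le
        have h8 : e * (c0 * D) = 8 * (C * D) := by
          calc e * (c0 * D) = (c0 * e) * D := by ring
            _ = 8 * (C * D) := by rw [hc0e]; ring
        rw [h8] at h7
        have h9 : e * (8 * (r1 * r2)) = 8 * (e * (r2 * r1)) := by ring
        rw [h9] at h7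
        linarith
      · intro l hl1 hlm hls
        by_cases h3 : f^[l] y = f^[a] y
        · exact Or.inl h3
        · right
          by_cases h4 : ‖κ (f^[l] y) - κ q‖ ≤ R0
          · rw [hr2]
            exact hbmin l (Finset.mem_filter.2 ⟨(hmem l).2 ⟨hlm, hl1, hls, h4⟩, h3⟩)
          · push Not at h4
            rw [hr2]
            linarith
  refine ⟨B, hBpos, ?_⟩
  intro M _ f κ x hball y m hm hy hyx hfy hD
  have h1 := hΘpos m
  have h2 : 4 * Θ 1 ≤ e * ρ0 / 8 ∧ 4 * Θ 1 ≤ ρ0 / 8 := by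
    have h3 : 4 * σ ≤ e * R0 ^ 2 := by
      have : 4 * σ ≤ 4 * (C * σ) := by linarith
      rw [hσC] at this
      linarith
    have h4 : e * R0 ^ 2 ≤ e * ρ0 / 8 := by
      have h5 : R0 ^ 2 ≤ R0 / 4 := by nlinarith
      have h6 : e * R0 ^ 2 ≤ e * (R0 / 4) := mul_le_mul_of_nonneg_left h5 he0.le
      rw [hR0] at h6 ⊢
      nlinarith [mul_pos he0 hρ0]
    have h5 : e * ρ0 / 8 ≤ ρ0 / 8 := by nlinarith
    constructor <;> linarith
  have h3 : Real.exp (-(B * (m:ℝ) ^ gs)) ≤ Θ m := by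
    rw [hΘ]
    unfold Th
    have h4 := Real.exp_pos (-(B * (m:ℝ) ^ gs))
    nlinarith
  obtain ⟨u, q, m', hu, hm', hqs, hq, hper⟩ := key M f κ x hball m hm y hy
    (by linarith [h2.2]) hfy (hD.trans h3)
  refine ⟨u, q, m', hu.mono Subset.rfl heε heε heε, hm', hqs, ?_, hper⟩
  have h4 : e * ρ0 / 8 ≤ e := by nlinarith
  linarith [h2.1]

end Pool.Agent.H63.GR
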