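import Pool.Agent.H63.GR.FSTG
import Pool.Agent.H91.TC.All

/-! Golden returns (problem MP_43af95_an): the closing lemma on compact manifolds. -/

set_option autoImplicit false

open Set Function Topology Metric Filter
open scoped Manifold
open Pool.Agent.H88.CL Pool.Agent.H88.CM Pool.Agent.H91.TC

namespace Pool.Agent.H63.GR

/-- In the chart `κ`, arbitrarily close to `x` there are points which return at distance at most
`exp (- B m ^ s)` after time `m ≥ 1`, for every `B`. -/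
def FastAt {n : ℕ} {M : Type} [TopologicalSpace M] (κ : Ch n M) (f : M → M) (x : M) : Prop :=
  ∀ B : ℝ, 0 < B → ∀ V ∈ 𝓝 x, ∃ (y : M) (m : ℕ), y ∈ V ∧ 1 ≤ m ∧ y ∈ κ.source ∧
    f^[m] y ∈ κ.source ∧ ‖κ (f^[m] y) - κ y‖ ≤ Real.exp (-(B * (m:ℝ) ^ gs))

def T_GMAIN : Prop := ∀ (n : ℕ) (M : Type) [TopologicalSpace M] [T2Space M] [CompactSpace M]
  [ChartedSpace (E n) M] [IsManifold 𝓘(ℝ, E n) 2 M] (f f' : M → M) (x : M), DM n f f' →
  ∀ κ : Ch n M, κ ∈ MA n M → x ∈ κ.source → FastAt κ f x →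
  ∀ (nt : ℕ) (φ ψ : Fin nt → Ch n M) (Q : Fin nt → Set M), (∀ i, Test n f (φ i) (ψ i) (Q i)) →
  ∀ η : ℝ, 0 < η → ∃ (g g' : M → M) (m : ℕ), DM n g g' ∧ 1 ≤ m ∧ g^[m] x = x ∧
    ∀ i, Cls2T n η f g (φ i) (ψ i) (Q i)

theorem act0 (n : ℕ) (M : Type) [TopologicalSpace M] [ChartedSpace (E n) M] :
    Act n 0 (fun (_ : E 0) (y : M) => y) where
  c2 := contMDiff_snd
  zero := fun _ => rfl
  add := fun _ _ _ => rfl

theorem pf_GMAIN (hF : T_FSTG) (hCLA : T_CLA) (hINV : T_INV) (hBMD : T_BMD)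
    (hOBP : Pool.Agent.H88.CL.T_OBP) : T_GMAIN := by
  intro n M _ _ _ _ _ f f' x hf κ hκ hxκ hfast nt φ ψ Q hT η hη
  obtain ⟨ρ', hρ'0, hρ'⟩ := Metric.isOpen_iff.1 κ.open_target (κ x) (κ.map_source hxκ)
  obtain ⟨ρ0, hρ0, hρ01, hball⟩ : ∃ ρ0 : ℝ, 0 < ρ0 ∧ ρ0 ≤ 1 ∧
      closedBall (κ x) ρ0 ⊆ κ.target := by
    refine ⟨min 1 (ρ' / 2), lt_min one_pos (by linarith), min_le_left _ _, ?_⟩
    refine (closedBall_subset_ball ?_).trans hρ'
    exact (min_le_right _ _).trans_lt (by linarith)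
  have hA := act0 n M
  choose t1 ht1 ht12 hcla using fun i => hCLA n 0 M _ f f' κ (closedBall (κ x) ρ0) hA hf hκ
    (isCompact_closedBall _ _) hball (φ i) (ψ i) (Q i) (hT i) η hη
  obtain ⟨t2, ht2, ht2k⟩ := fin_min t1 ht1
  obtain ⟨t, ht⟩ : ∃ t : ℝ, t = min t2 (1 / 2) := ⟨_, rfl⟩
  have ht0 : 0 < t := by rw [ht]; exact lt_min ht2 (by norm_num)
  have hthalf : t ≤ 1 / 2 := by rw [ht]; exact min_le_right _ _
  have htk : ∀ i, t ≤ t1 i := fun i => by rw [ht]; exact (min_le_left _ _).trans (ht2k i)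
  have hmono : ∀ (i : Fin nt) (u : E n → E n), Bp n (closedBall (κ x) ρ0) t t t u →
      Bp n (closedBall (κ x) ρ0) (t1 i) (t1 i) (t1 i) u := fun i u hu =>
    hu.mono subset_rfl (htk i) (htk i) (htk i)
  obtain ⟨δ, hδ, hmove⟩ := move hINV hOBP n (κ x) ρ0 t hρ0 ht0 hthalf
  obtain ⟨B, hB, hclose⟩ := hF n (min t (δ / 2)) ρ0 (lt_min ht0 (by linarith)) hρ0 hρ01
  have hV : {y | ‖κ y - κ x‖ < min (ρ0 / 8) (δ / 2)} ∈ 𝓝 x := by
    have h1 : ContinuousAt (fun y => ‖κ y - κ x‖) x :=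
      ((κ.continuousAt hxκ).sub continuousAt_const).norm
    apply h1.eventually_lt continuousAt_const
    simp only [sub_self, norm_zero]
    exact lt_min (by linarith) (by linarith)
  obtain ⟨y, m0, hyV, hm0, hys, hfy, hD⟩ := hfast B hB _ hV
  have hyV' : ‖κ y - κ x‖ < min (ρ0 / 8) (δ / 2) := hyV
  obtain ⟨U, q, m, hU, hm, hqs, hqy, hret⟩ := hclose M f κ (κ x) hball y m0 hm0 hys
    (hyV'.le.trans (min_le_left _ _)) hfy hD
  have hqx : ‖κ q - κ x‖ ≤ δ := by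
    have e1 : κ q - κ x = (κ q - κ y) + (κ y - κ x) := by abel
    rw [e1]
    refine (norm_add_le _ _).trans ?_
    have h1 := hqy.trans (min_le_right _ _)
    have h2 := hyV'.le.trans (min_le_right _ _)
    linarith
  obtain ⟨V, V', hV1, hV', hi1, hi2, hVx⟩ := hmove (κ q) hqx
  have hUt : Bp n (closedBall (κ x) ρ0) t t t U :=
    hU.mono subset_rfl (min_le_left _ _) (min_le_left _ _) (min_le_left _ _)
  obtain ⟨U', hU', hj1, hj2⟩ := hINV n _ _ _ _ U hUt hthalf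
  obtain ⟨hDM, _, _⟩ := hBMD n M κ (closedBall (κ x) ρ0) _ _ _ _ _ _ V V' hκ
    (isCompact_closedBall _ _) hball hV1 hV' hi1 hi2
  obtain ⟨hDMU, _, _⟩ := hBMD n M κ (closedBall (κ x) ρ0) _ _ _ _ _ _ U U' hκ
    (isCompact_closedBall _ _) hball hUt hU' hj1 hj2
  have hDM' : DM n (bmp κ V') (bmp κ V) := ⟨hDM.c', hDM.c, hDM.ri, hDM.li⟩
  have hG : DM n (f ∘ bmp κ U) (bmp κ U' ∘ f') := hf.comp hDMU
  have hτx : bmp κ V x = q := by
    rw [bmp_of_mem hxκ, hVx, add_sub_cancel, κ.left_inv hqs]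
  have hτq : bmp κ V' q = x := by rw [← hτx]; exact hDM.li x
  refine ⟨bmp κ V' ∘ ((f ∘ bmp κ U) ∘ bmp κ V), _, m, hDM'.comp (hG.comp hDM), hm, ?_,
    fun i => ?_⟩
  · rcases conj_iterM (f ∘ bmp κ U) (bmp κ V) (bmp κ V') hDM.ri m x with h3 | h3
    · rw [h3, hτx, hret, hτq]
    · omega
  · exact hcla i 0 U V V' (by rw [norm_zero]; exact (ht1 i).le) (hmono i U hUt)
      (hmono i V hV1) (hmono i V' hV')

theorem c_GMAIN : T_GMAIN := pf_GMAIN (pf_FSTG b_OBCM Pool.Agent.H88.CL.a_BMP) b_CLA b_INV b_BMD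
  b_OBP

end Pool.Agent.H63.GR
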