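import Pool.Agent.H63.GR.Statement
import Pool.Agent.H63.GR.Main

/-! The closing lemma for golden returns in terms of the definitions of
`Pool/Agent/H63/GR/Statement.lean`. -/

set_option autoImplicit false

open Set Function Topology Filter
open scoped Manifold

namespace Pool.Agent.H63.GR

open Pool.Agent.H88.CL Pool.Agent.H88.CM Pool.Agent.H91 Pool.Agent.H91.TC

theorem final_closing (n : ℕ) (M : Type) [TopologicalSpace M] [T2Space M] [CompactSpace M]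
    [ChartedSpace (TCS.E n) M] (hM : TCS.IsMfd n M) (f : Equiv.Perm M) (hf : TCS.Diff2 n f)
    (x : M) (hx : GRS.GoldenReturns n f x)
    (nt : ℕ) (φ ψ : Fin nt → TCS.Chart n M) (K : Fin nt → Set M)
    (hT : ∀ i, TCS.Test n f (φ i) (ψ i) (K i)) (η : ℝ) (hη : 0 < η) :
    ∃ g : Equiv.Perm M, TCS.Diff2 n g ∧ (∃ m : ℕ, 1 ≤ m ∧ (g ^ m) x = x) ∧
      ∀ i, TCS.Close2 n η f g (φ i) (ψ i) (K i) := by
  have : IsManifold 𝓘(ℝ, E n) 2 M := hM
  have hDM : DM n f f.symm := ⟨hf.1, hf.2, f.symm_apply_apply, f.apply_symm_apply⟩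
  obtain ⟨κ, hκ, hxκ, hfast⟩ := hx
  have hfast' : FastAt κ (f : M → M) x := by
    intro B hB V hV
    obtain ⟨y, m, h1, h2, h3, h4, h5⟩ := hfast B hB V hV
    rw [perm_pow] at h4 h5
    exact ⟨y, m, h1, h2, h3, h4, h5⟩
  obtain ⟨g, g', m, hg, hm, hret, hcl⟩ := c_GMAIN n M f f.symm x hDM κ hκ hxκ hfast' nt φ ψ K
    (fun i => ⟨(hT i).fst, (hT i).snd, (hT i).compact, (hT i).source, (hT i).maps⟩) η hη
  refine ⟨⟨g, g', hg.li, hg.ri⟩, ⟨hg.c, hg.c'⟩, ⟨m, hm, ?_⟩, fun i => ⟨(hcl i).m, (hcl i).z,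
    fun u hu w => ?_, fun u hu w w' => ?_⟩⟩
  · rw [perm_pow]
    exact hret
  · have h1 := (fderiv ℝ (rep (φ i) (ψ i) g) u - fderiv ℝ (rep (φ i) (ψ i) f) u).le_opNorm w
    exact h1.trans (mul_le_mul_of_nonneg_right ((hcl i).o u hu) (norm_nonneg w))
  · have h1 := (fderiv ℝ (fderiv ℝ (rep (φ i) (ψ i) g)) u -
      fderiv ℝ (fderiv ℝ (rep (φ i) (ψ i) f)) u).le_opNorm₂ w w'
    exact h1.trans (mul_le_mul_of_nonneg_right (mul_le_mul_of_nonneg_right ((hcl i).t u hu)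
      (norm_nonneg w)) (norm_nonneg w'))

end Pool.Agent.H63.GR
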