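import Pool.Agent.H63.GR.Orbit
import Pool.Agent.H63.GR.Main

/-! Golden returns (problem MP_43af95_an): a periodic point becomes nondegenerate after a small
perturbation. -/

set_option autoImplicit false

open Set Function Topology Metric Filter
open scoped Manifold
open Pool.Agent.H88.CL Pool.Agent.H88.CM Pool.Agent.H91.TC Pool.Agent.H99.CM

namespace Pool.Agent.H63.GR

/-- a bump equal to `v - c` near `c` -/
theorem exists_dil (hB : T_BMP) (n : ℕ) (c : E n) (ρ : ℝ) (hρ : 0 < ρ) :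
    ∃ (w : E n → E n) (C : ℝ), 1 ≤ C ∧ Bp n (closedBall c ρ) C C C w ∧
      ∀ᶠ v in 𝓝 c, w v = v - c := by
  obtain ⟨φ, _, _, hφ2, hφ1, hφ0, _, _, _⟩ := hB n
  obtain ⟨w, hw⟩ : ∃ w : E n → E n, w = fun v => φ (ρ⁻¹ • (v - c)) • (v - c) := ⟨_, rfl⟩
  have hw2 : ContDiff ℝ 2 w := by
    rw [hw]
    exact (hφ2.comp ((contDiff_id.sub contDiff_const).const_smul ρ⁻¹)).smul
      (contDiff_id.sub contDiff_const)
  have hsupp : ∀ v, w v ≠ 0 → v ∈ closedBall c ρ := by
    intro v hv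
    by_contra hne
    apply hv
    rw [mem_closedBall, dist_eq_norm, not_le] at hne
    rw [hw]
    simp only
    rw [hφ0 _ ?_, zero_smul]
    rw [norm_smul, norm_inv, Real.norm_eq_abs, abs_of_pos hρ, ← div_eq_inv_mul, le_div_iff₀ hρ]
    linarith
  have hcs : HasCompactSupport w := by
    apply HasCompactSupport.intro (isCompact_closedBall c ρ)
    intro v hv
    by_contra hne
    exact hv (hsupp v hne)
  have hd1 : ContDiff ℝ 1 (fderiv ℝ w) := hw2.fderiv_right (by norm_num)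
  obtain ⟨C1, hC1⟩ := hcs.exists_bound_of_continuous hw2.continuous
  obtain ⟨C2, hC2⟩ := (hcs.fderiv ℝ).exists_bound_of_continuous hd1.continuous
  obtain ⟨C3, hC3⟩ := hd1.lipschitzWith_of_hasCompactSupport (hcs.fderiv ℝ) (by norm_num)
  refine ⟨w, 1 + |C1| + |C2| + C3, ?_, ⟨hw2, hsupp, fun v => ?_, fun v => ?_, fun v v' => ?_⟩, ?_⟩
  · have h1 := abs_nonneg C1
    have h2 := abs_nonneg C2
    have h3 := C3.coe_nonneg
    linarith
  · have h1 := le_abs_self C1
    have h2 := abs_nonneg C2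
    have h3 := C3.coe_nonneg
    linarith [hC1 v]
  · have h1 := abs_nonneg C1
    have h2 := le_abs_self C2
    have h3 := C3.coe_nonneg
    linarith [hC2 v]
  · have h0 := hC3.dist_le_mul v v'
    rw [dist_eq_norm, dist_eq_norm] at h0
    refine h0.trans (mul_le_mul_of_nonneg_right ?_ (norm_nonneg _))
    have h1 := abs_nonneg C1
    have h2 := abs_nonneg C2
    linarith
  · have h1 : ∀ᶠ v in 𝓝 c, ‖v - c‖ < 11 / 20 * ρ := by
      have : Metric.ball c (11 / 20 * ρ) ∈ 𝓝 c := Metric.ball_mem_nhds c (by positivity)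
      filter_upwards [this] with v hv
      rwa [Metric.mem_ball, dist_eq_norm] at hv
    filter_upwards [h1] with v hv
    rw [hw]
    simp only
    rw [hφ1 _ ?_, one_smul]
    rw [norm_smul, norm_inv, Real.norm_eq_abs, abs_of_pos hρ, ← div_eq_inv_mul, div_le_iff₀ hρ]
    exact hv.le

/-- avoiding eigenvalues -/
theorem exists_scale {n : ℕ} (A : E n →L[ℝ] E n) (s : ℝ) (hs : 0 < s) :
    ∃ (t : ℝ) (B : E n →L[ℝ] E n), 0 < t ∧ t ≤ s ∧ ∀ v, B ((1 + t) • A v - v) = v := by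
  obtain ⟨A', hA'⟩ : ∃ A' : Module.End ℝ (E n), A' = (A : E n →ₗ[ℝ] E n) := ⟨_, rfl⟩
  have hfin : (spectrum ℝ A').Finite := Module.End.finite_spectrum A'
  have hinf : (Ioc 0 s : Set ℝ).Infinite := Ioc_infinite hs
  have hinj : InjOn (fun t : ℝ => (1 + t)⁻¹) (Ioc 0 s) := by
    intro a _ b _ hab
    have : (1 + a) = (1 + b) := inv_injective hab
    linarith
  obtain ⟨t, ht, htS⟩ : ∃ t ∈ Ioc 0 s, (1 + t)⁻¹ ∉ spectrum ℝ A' := by
    by_contra hne
    push Not at hne
    have h1 : (fun t : ℝ => (1 + t)⁻¹) '' (Ioc 0 s) ⊆ spectrum ℝ A' := by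
      rintro _ ⟨t, ht, rfl⟩
      exact hne t ht
    exact hinf ((hfin.subset h1).of_finite_image hinj)
  rw [spectrum.notMem_iff] at htS
  obtain ⟨U, hU⟩ := htS
  have ht1 : 0 < 1 + t := by linarith [ht.1]
  have hB0 : ∀ v, (U⁻¹ : (Module.End ℝ (E n))ˣ).1 ((1 + t)⁻¹ • v - A v) = v := by
    intro v
    have h1 : (1 + t)⁻¹ • v - A v = U.1 v := by
      rw [hU, hA']
      simp [Algebra.algebraMap_eq_smul_one]
    rw [h1, ← Module.End.mul_apply, Units.inv_mul]
    rfl
  refine ⟨t, -((1 + t)⁻¹ • LinearMap.toContinuousLinearMap (U⁻¹ : (Module.End ℝ (E n))ˣ).1),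
    ht.1, ht.2, fun v => ?_⟩
  have h1 : (1 + t) • A v - v = -((1 + t) • ((1 + t)⁻¹ • v - A v)) := by
    rw [smul_sub, smul_smul, mul_inv_cancel₀ ht1.ne', one_smul]
    abel
  rw [h1]
  show -((1 + t)⁻¹ • (U⁻¹ : (Module.End ℝ (E n))ˣ).1 (-((1 + t) • ((1 + t)⁻¹ • v - A v)))) = v
  rw [map_neg, map_smul, hB0, smul_neg, neg_neg, smul_smul, inv_mul_cancel₀ ht1.ne', one_smul]

/-- a periodic point becomes nondegenerate after a small perturbation -/
theorem nondeg (hB : T_BMP) (hCLA : T_CLA) (hINV : T_INV) (hBMD : T_BMD) (n : ℕ) (M : Type)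
    [TopologicalSpace M] [T2Space M] [CompactSpace M] [ChartedSpace (E n) M]
    [IsManifold 𝓘(ℝ, E n) 2 M] (g g' : M → M) (hg : DM n g g') (x : M) (q : ℕ) (hq : 1 ≤ q)
    (hqx : g^[q] x = x) (hmin : ∀ j, 1 ≤ j → j < q → g^[j] x ≠ x) (nt : ℕ)
    (φ ψ : Fin nt → Ch n M) (Q : Fin nt → Set M) (hT : ∀ i, Test n g (φ i) (ψ i) (Q i)) (η : ℝ)
    (hη : 0 < η) : ∃ (G G' : M → M) (B : E n →L[ℝ] E n), DM n G G' ∧
      (∀ i, Cls2T n η g G (φ i) (ψ i) (Q i)) ∧ G^[q] x = x ∧
      ∀ v, B (fderiv ℝ (rep (chartAt (E n) x) (chartAt (E n) x) (G^[q]))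
        ((chartAt (E n) x : Ch n M) x) v - v) = v := by
  obtain ⟨κ, hκd⟩ : ∃ κ : Ch n M, κ = chartAt (E n) x := ⟨_, rfl⟩
  have hxκ : x ∈ κ.source := by rw [hκd]; exact mem_chart_source (E n) x
  have hκ : κ ∈ MA n M := by rw [hκd]; exact IsManifold.chart_mem_maximalAtlas x
  rw [← hκd]
  have hct : κ x ∈ κ.target := κ.map_source hxκ
  -- the radius
  obtain ⟨ρ, hρ0, hρt, hρj⟩ : ∃ ρ : ℝ, 0 < ρ ∧ closedBall (κ x) ρ ⊆ κ.target ∧
      ∀ j, 1 ≤ j → j < q → g^[j] x ∉ κ.symm '' closedBall (κ x) ρ := by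
    obtain ⟨ρ', hρ'0, hρ'⟩ := Metric.isOpen_iff.1 κ.open_target (κ x) hct
    have h1 : ∀ j : ℕ, ∃ r : ℝ, 0 < r ∧ (1 ≤ j → j < q → ∀ v ∈ closedBall (κ x) r,
        v ∈ κ.target → g^[j] x ≠ κ.symm v) := by
      intro j
      by_cases hj : 1 ≤ j ∧ j < q
      · by_cases hs : g^[j] x ∈ κ.source
        · have hne : κ (g^[j] x) ≠ κ x := fun h => hmin j hj.1 hj.2 (κ.injOn hs hxκ h)
          have hd : 0 < ‖κ (g^[j] x) - κ x‖ := norm_pos_iff.2 (sub_ne_zero.2 hne)
          refine ⟨‖κ (g^[j] x) - κ x‖ / 2, by linarith, fun _ _ v hv hvt he => ?_⟩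
          rw [he, κ.right_inv hvt] at hd hv
          rw [mem_closedBall, dist_eq_norm] at hv
          linarith
        · exact ⟨1, one_pos, fun _ _ v _ hvt he => hs (by rw [he]; exact κ.map_target hvt)⟩
      · exact ⟨1, one_pos, fun a b => absurd ⟨a, b⟩ hj⟩
    choose r hr0 hr using h1
    obtain ⟨r0, hr00, hr0k⟩ := fin_min (fun j : Fin q => r j) (fun j => hr0 j)
    refine ⟨min (ρ' / 2) r0, lt_min (by linarith) hr00, ?_, ?_⟩
    · refine (closedBall_subset_ball ?_).trans hρ'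
      exact (min_le_left _ _).trans_lt (by linarith)
    · rintro j hj1 hjq ⟨v, hv, hve⟩
      have h2 : v ∈ closedBall (κ x) (r j) :=
        closedBall_subset_closedBall ((min_le_right _ _).trans (hr0k ⟨j, hjq⟩)) hv
      have h3 : v ∈ κ.target := hρ' (closedBall_subset_ball
        ((min_le_left _ _).trans_lt (by linarith)) hv)
      exact hr j hj1 hjq v h2 h3 hve.symm
  have hA := act0 n M
  choose t1 ht1 ht12 hcla using fun i => hCLA n 0 M _ g g' κ (closedBall (κ x) ρ) hA hg hκ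
    (isCompact_closedBall _ _) hρt (φ i) (ψ i) (Q i) (hT i) η hη
  obtain ⟨t2, ht2, ht2k⟩ := fin_min t1 ht1
  obtain ⟨w, C, hC1, hw, hwx⟩ := exists_dil hB n (κ x) ρ hρ0
  have hC0 : 0 < C := by linarith
  obtain ⟨A, hAd⟩ : ∃ A : E n →L[ℝ] E n, A = fderiv ℝ (rep κ κ (g^[q])) (κ x) := ⟨_, rfl⟩
  obtain ⟨t, B, ht0, hts, hBt⟩ := exists_scale A (min t2 (1 / 2) / C)
    (div_pos (lt_min ht2 (by norm_num)) hC0)
  have htC : t * C ≤ min t2 (1 / 2) := by rwa [le_div_iff₀ hC0] at hts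
  have htC0 : 0 ≤ t * C := by positivity
  obtain ⟨u, hu⟩ : ∃ u : E n → E n, u = fun v => t • w v := ⟨_, rfl⟩
  have hfd : ∀ v, fderiv ℝ u v = t • fderiv ℝ w v := by
    intro v
    rw [hu]
    exact fderiv_const_smul (hw.c2.differentiable (by norm_num) v) t
  have huB : Bp n (closedBall (κ x) ρ) (t * C) (t * C) (t * C) u := by
    refine ⟨by rw [hu]; exact hw.c2.const_smul t, fun v hv => hw.sup v fun h0 => hv ?_,
      fun v => ?_, fun v => ?_, fun v v' => ?_⟩
    · rw [hu]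
      simp only
      rw [h0, smul_zero]
    · rw [hu]
      simp only
      rw [norm_smul, Real.norm_eq_abs, abs_of_pos ht0]
      exact mul_le_mul_of_nonneg_left (hw.s v) ht0.le
    · rw [hfd, norm_smul, Real.norm_eq_abs, abs_of_pos ht0]
      exact mul_le_mul_of_nonneg_left (hw.b v) ht0.le
    · have h0 : t • fderiv ℝ w v - t • fderiv ℝ w v' = t • (fderiv ℝ w v - fderiv ℝ w v') := by
        module
      rw [hfd, hfd, h0, norm_smul, Real.norm_eq_abs, abs_of_pos ht0, mul_assoc]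
      exact mul_le_mul_of_nonneg_left (hw.g v v') ht0.le
  have hhalf : t * C ≤ 1 / 2 := htC.trans (min_le_right _ _)
  obtain ⟨u', hu', hj1, hj2⟩ := hINV n _ _ _ _ u huB hhalf
  obtain ⟨hDMu, _, _⟩ := hBMD n M κ (closedBall (κ x) ρ) _ _ _ _ _ _ u u' hκ
    (isCompact_closedBall _ _) hρt huB hu' hj1 hj2
  have hG : DM n (g ∘ bmp κ u) (bmp κ u' ∘ g') := hg.comp hDMu
  have hux : u (κ x) = 0 := by
    rw [hu]
    simp only
    rw [hwx.self_of_nhds, sub_self, smul_zero]
  have hbx : bmp κ u x = x := by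
    rw [bmp_of_mem hxκ, hux, add_zero, κ.left_inv hxκ]
  -- the bump is the identity away from its support
  have hoff : ∀ z, z ∉ κ.symm '' closedBall (κ x) ρ → bmp κ u z = z := by
    intro z hz
    by_cases hs : z ∈ κ.source
    · have h0 : u (κ z) = 0 := by
        by_contra hne
        exact hz ⟨κ z, huB.sup _ hne, κ.left_inv hs⟩
      rw [bmp_of_mem hs, h0, add_zero, κ.left_inv hs]
    · exact bmp_of_notMem hs
  have hcl : IsClosed (κ.symm '' closedBall (κ x) ρ) := by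
    apply IsCompact.isClosed
    exact (isCompact_closedBall (κ x) ρ).image_of_continuousOn
      (κ.continuousOn_symm.mono hρt)
  have hgc : ∀ j, Continuous (g^[j]) := fun j => hg.c.continuous.iterate j
  have hbc : Continuous (bmp κ u) := hDMu.c.continuous
  have hev : ∀ᶠ y in 𝓝 x, ∀ j : Fin q, 1 ≤ (j : ℕ) →
      g^[j] (bmp κ u y) ∉ κ.symm '' closedBall (κ x) ρ := by
    rw [eventually_all]
    intro j
    by_cases hj : 1 ≤ (j : ℕ)
    · have h1 : ∀ᶠ y in 𝓝 x, g^[j] (bmp κ u y) ∈ (κ.symm '' closedBall (κ x) ρ)ᶜ := by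
        have h2 : Continuous fun y => g^[j] (bmp κ u y) := (hgc j).comp hbc
        apply h2.continuousAt.eventually
        apply hcl.isOpen_compl.mem_nhds
        show g^[j] (bmp κ u x) ∉ _
        rw [hbx]
        exact hρj j hj j.2
      filter_upwards [h1] with y hy _
      exact hy
    · exact Eventually.of_forall fun y h => absurd h hj
  have hGq : ∀ᶠ y in 𝓝 x, (g ∘ bmp κ u)^[q] y = g^[q] (bmp κ u y) := by
    filter_upwards [hev] with y hy
    have h1 : ∀ j, 1 ≤ j → j ≤ q → (g ∘ bmp κ u)^[j] y = g^[j] (bmp κ u y) := by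
      intro j hj1
      induction j, hj1 using Nat.le_induction with
      | base => intro _; rfl
      | succ j hj1 ih =>
        intro hjq
        rw [iterate_succ_apply', ih (by omega), iterate_succ_apply' g j, comp_apply,
          hoff _ (hy ⟨j, by omega⟩ hj1)]
    exact h1 q hq le_rfl
  refine ⟨g ∘ bmp κ u, bmp κ u' ∘ g', B, hG, fun i => ?_, ?_, ?_⟩
  · have h0 := Bp_zero (closedBall (κ x) ρ) (ht1 i).le
    have h1 := hcla i 0 u _ _ (by rw [norm_zero]; exact (ht1 i).le)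
      (huB.mono subset_rfl ((htC.trans (min_le_left _ _)).trans (ht2k i))
        ((htC.trans (min_le_left _ _)).trans (ht2k i))
        ((htC.trans (min_le_left _ _)).trans (ht2k i))) h0 h0
    rw [bmp_zero] at h1
    exact h1
  · rw [hGq.self_of_nhds, hbx, hqx]
  · -- the derivative
    have hsym : Tendsto κ.symm (𝓝 (κ x)) (𝓝 x) := by
      have h3 := (κ.symm.continuousAt (x := κ x) hct).tendsto
      rwa [κ.left_inv hxκ] at h3
    have hloc : rep κ κ ((g ∘ bmp κ u)^[q]) =ᶠ[𝓝 (κ x)]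
        (rep κ κ (g^[q])) ∘ (fun v => v + t • (v - κ x)) := by
      filter_upwards [hsym.eventually hGq, κ.open_target.mem_nhds hct, hwx] with v h1 h2 h3
      show κ ((g ∘ bmp κ u)^[q] (κ.symm v)) = κ (g^[q] (κ.symm (v + t • (v - κ x))))
      rw [h1, bmp_of_mem (κ.map_target h2), κ.right_inv h2, hu]
      simp only
      rw [h3]
    have hgq : ContMDiff 𝓘(ℝ, E n) 𝓘(ℝ, E n) 2 (g^[q]) := by
      have : ∀ j, ContMDiff 𝓘(ℝ, E n) 𝓘(ℝ, E n) 2 (g^[j]) := by
        intro j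
        induction j with
        | zero => exact contMDiff_id
        | succ j ih =>
          rw [iterate_succ']
          exact hg.c.comp ih
      exact this q
    have hd1 : HasFDerivAt (rep κ κ (g^[q])) A (κ x + t • (κ x - κ x)) := by
      rw [sub_self, smul_zero, add_zero, hAd]
      refine (rep_df κ κ hκ hκ hgq ⟨hct, ?_⟩).hasFDerivAt
      show g^[q] (κ.symm (κ x)) ∈ κ.source
      rw [κ.left_inv hxκ, hqx]
      exact hxκ
    have hd2 : HasFDerivAt (fun v : E n => v + t • (v - κ x))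
        (ContinuousLinearMap.id ℝ (E n) + t • ContinuousLinearMap.id ℝ (E n)) (κ x) :=
      (hasFDerivAt_id _).add (((hasFDerivAt_id _).sub_const _).const_smul t)
    have hd3 := hd1.comp (κ x) hd2
    intro v
    rw [hloc.fderiv_eq, hd3.fderiv]
    have h4 : (A.comp (ContinuousLinearMap.id ℝ (E n) + t • ContinuousLinearMap.id ℝ (E n))) v =
        (1 + t) • A v := by
      show A (v + t • v) = _
      rw [map_add, map_smul, add_smul, one_smul]
    rw [h4]
    exact hBt v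

end Pool.Agent.H63.GR
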