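import Pool.Agent.H63.GR.Fin
import Pool.Agent.H63.GR.Nondeg

/-! Golden returns (problem MP_43af95_an): the generic density theorem. -/

set_option autoImplicit false

open Set Function Topology Filter
open scoped Manifold

namespace Pool.Agent.H63.GR

open Pool.Agent.H88.CL Pool.Agent.H88.CM Pool.Agent.H91 Pool.Agent.H91.TC
open Pool.Agent.H63.GRS

theorem close_self {n : ℕ} {M : Type} [TopologicalSpace M] [ChartedSpace (TCS.E n) M]
    {f : M → M} {φ ψ : TCS.Chart n M} {K : Set M} (h : TCS.Test n f φ ψ K) {η : ℝ} (hη : 0 ≤ η) :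
    TCS.Close2 n η f f φ ψ K :=
  ⟨h.maps, fun y _ => by simpa using hη, fun u _ w => by
    rw [sub_self, norm_zero]; positivity, fun u _ w w' => by
    rw [sub_self, norm_zero]; positivity⟩

theorem close_trans {n : ℕ} {M : Type} [TopologicalSpace M] [ChartedSpace (TCS.E n) M]
    {f g h : M → M} {φ ψ : TCS.Chart n M} {K : Set M} {η : ℝ}
    (h1 : TCS.Close2 n (η / 2) f g φ ψ K) (h2 : TCS.Close2 n (η / 2) g h φ ψ K) :
    TCS.Close2 n η f h φ ψ K := by
  refine ⟨h2.maps, fun y hy => ?_, fun u hu w => ?_, fun u hu w w' => ?_⟩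
  · have e : ψ (h y) - ψ (f y) = (ψ (h y) - ψ (g y)) + (ψ (g y) - ψ (f y)) := by abel
    rw [e]
    refine (norm_add_le _ _).trans ?_
    linarith [h1.zero y hy, h2.zero y hy]
  · have e : TCS.der (TCS.rep φ ψ h) u w - TCS.der (TCS.rep φ ψ f) u w =
        (TCS.der (TCS.rep φ ψ h) u w - TCS.der (TCS.rep φ ψ g) u w) +
        (TCS.der (TCS.rep φ ψ g) u w - TCS.der (TCS.rep φ ψ f) u w) := by abel
    rw [e]
    refine (norm_add_le _ _).trans ?_
    have a1 := h1.one u hu w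
    have a2 := h2.one u hu w
    linarith
  · have e : TCS.der2 (TCS.rep φ ψ h) u w w' - TCS.der2 (TCS.rep φ ψ f) u w w' =
        (TCS.der2 (TCS.rep φ ψ h) u w w' - TCS.der2 (TCS.rep φ ψ g) u w w') +
        (TCS.der2 (TCS.rep φ ψ g) u w w' - TCS.der2 (TCS.rep φ ψ f) u w w') := by abel
    rw [e]
    refine (norm_add_le _ _).trans ?_
    have a1 := h1.two u hu w w'
    have a2 := h2.two u hu w w'
    linarith

theorem test_of_close {n : ℕ} {M : Type} [TopologicalSpace M] [ChartedSpace (TCS.E n) M]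
    {f g : M → M} {φ ψ : TCS.Chart n M} {K : Set M} {η : ℝ} (hT : TCS.Test n f φ ψ K)
    (h : TCS.Close2 n η f g φ ψ K) : TCS.Test n g φ ψ K :=
  ⟨hT.fst, hT.snd, hT.compact, hT.source, h.maps⟩

theorem close_of_cls {n : ℕ} {M : Type} [TopologicalSpace M] [ChartedSpace (TCS.E n) M]
    {f g : M → M} {φ ψ : TCS.Chart n M} {K : Set M} {η : ℝ} (h : Cls2T n η f g φ ψ K) :
    TCS.Close2 n η f g φ ψ K := by
  refine ⟨h.m, h.z, fun u hu w => ?_, fun u hu w w' => ?_⟩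
  · have h1 := (fderiv ℝ (rep φ ψ g) u - fderiv ℝ (rep φ ψ f) u).le_opNorm w
    exact h1.trans (mul_le_mul_of_nonneg_right (h.o u hu) (norm_nonneg w))
  · have h1 := (fderiv ℝ (fderiv ℝ (rep φ ψ g)) u -
      fderiv ℝ (fderiv ℝ (rep φ ψ f)) u).le_opNorm₂ w w'
    exact h1.trans (mul_le_mul_of_nonneg_right (mul_le_mul_of_nonneg_right (h.t u hu)
      (norm_nonneg w)) (norm_nonneg w'))

theorem cls_of_close {n : ℕ} {M : Type} [TopologicalSpace M] [ChartedSpace (TCS.E n) M]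
    {f g : M → M} {φ ψ : TCS.Chart n M} {K : Set M} {η : ℝ} (hη : 0 ≤ η)
    (h : TCS.Close2 n η f g φ ψ K) : Cls2T n η f g φ ψ K := by
  refine ⟨h.maps, h.zero, fun u hu => ?_, fun u hu => ?_⟩
  · exact ContinuousLinearMap.opNorm_le_bound _ hη fun w => h.one u hu w
  · exact ContinuousLinearMap.opNorm_le_bound₂ _ hη fun w w' => h.two u hu w w'

/-- the diffeomorphisms with a robust periodic point in `V` -/
def Rob (n : ℕ) {M : Type} [TopologicalSpace M] [ChartedSpace (TCS.E n) M] (V : Set M) :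
    Set (Diff n M) :=
  {f | ∃ (nt : ℕ) (φ ψ : Fin nt → TCS.Chart n M) (K : Fin nt → Set M) (η : ℝ),
    (∀ i, TCS.Test n f.1 (φ i) (ψ i) (K i)) ∧ 0 < η ∧
    ∀ g : Diff n M, (∀ i, TCS.Close2 n η f.1 g.1 (φ i) (ψ i) (K i)) → ∃ y ∈ V, y ∈ Per g.1}

theorem rob_open (n : ℕ) {M : Type} [TopologicalSpace M] [ChartedSpace (TCS.E n) M]
    (V : Set M) : OpenC2 n (Rob n V : Set (Diff n M)) := by
  rintro f ⟨nt, φ, ψ, K, η, hT, hη, h⟩
  refine ⟨nt, φ, ψ, K, η / 2, hT, by linarith, fun g hg => ?_⟩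
  refine ⟨nt, φ, ψ, K, η / 2, fun i => test_of_close (hT i) (hg i), by linarith,
    fun g' hg' => h g' fun i => close_trans (hg i) (hg' i)⟩

/-- the interior of the complement of `Rob` -/
def Out (n : ℕ) {M : Type} [TopologicalSpace M] [ChartedSpace (TCS.E n) M] (V : Set M) :
    Set (Diff n M) :=
  {f | ∃ (nt : ℕ) (φ ψ : Fin nt → TCS.Chart n M) (K : Fin nt → Set M) (η : ℝ),
    (∀ i, TCS.Test n f.1 (φ i) (ψ i) (K i)) ∧ 0 < η ∧
    ∀ g : Diff n M, (∀ i, TCS.Close2 n η f.1 g.1 (φ i) (ψ i) (K i)) → g ∉ Rob n V}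

theorem out_open (n : ℕ) {M : Type} [TopologicalSpace M] [ChartedSpace (TCS.E n) M]
    (V : Set M) : OpenC2 n (Out n V : Set (Diff n M)) := by
  rintro f ⟨nt, φ, ψ, K, η, hT, hη, h⟩
  refine ⟨nt, φ, ψ, K, η / 2, hT, by linarith, fun g hg => ?_⟩
  refine ⟨nt, φ, ψ, K, η / 2, fun i => test_of_close (hT i) (hg i), by linarith,
    fun g' hg' => h g' fun i => close_trans (hg i) (hg' i)⟩

theorem openC2_union {n : ℕ} {M : Type} [TopologicalSpace M] [ChartedSpace (TCS.E n) M]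
    {U W : Set (Diff n M)} (hU : OpenC2 n U) (hW : OpenC2 n W) : OpenC2 n (U ∪ W) := by
  rintro f (hf | hf)
  · obtain ⟨nt, φ, ψ, K, η, hT, hη, h⟩ := hU f hf
    exact ⟨nt, φ, ψ, K, η, hT, hη, fun g hg => Or.inl (h g hg)⟩
  · obtain ⟨nt, φ, ψ, K, η, hT, hη, h⟩ := hW f hf
    exact ⟨nt, φ, ψ, K, η, hT, hη, fun g hg => Or.inr (h g hg)⟩

theorem union_dense (n : ℕ) {M : Type} [TopologicalSpace M] [ChartedSpace (TCS.E n) M]
    (V : Set M) : DenseC2 n (Rob n V ∪ Out n V : Set (Diff n M)) := by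
  intro f nt φ ψ K η hT hη
  by_cases h : ∃ g ∈ (Rob n V : Set (Diff n M)), ∀ i, TCS.Close2 n η f.1 g.1 (φ i) (ψ i) (K i)
  · obtain ⟨g, hg, hc⟩ := h
    exact ⟨g, Or.inl hg, hc⟩
  · push Not at h
    refine ⟨f, Or.inr ⟨nt, φ, ψ, K, η, hT, hη, fun g hg hgR => ?_⟩,
      fun i => close_self (hT i) hη.le⟩
    obtain ⟨i, hi⟩ := h g hgR
    exact hi (hg i)

/-- a periodic point becomes robust after a small perturbation -/
theorem make_robust (n : ℕ) (M : Type) [TopologicalSpace M] [T2Space M] [CompactSpace M]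
    [ChartedSpace (TCS.E n) M] [IsManifold 𝓘(ℝ, E n) 2 M] (g : Diff n M) (x : M)
    (hx : x ∈ Per g.1) (V : Set M) (hV : V ∈ 𝓝 x) (nt : ℕ)
    (φ ψ : Fin nt → TCS.Chart n M) (K : Fin nt → Set M)
    (hT : ∀ i, TCS.Test n g.1 (φ i) (ψ i) (K i)) (η : ℝ) (hη : 0 < η) :
    ∃ g' ∈ (Rob n V : Set (Diff n M)), ∀ i, TCS.Close2 n η g.1 g'.1 (φ i) (ψ i) (K i) := by
  classical
  have hDM : DM n g.1 g.1.symm :=
    ⟨g.2.1, g.2.2, g.1.symm_apply_apply, g.1.apply_symm_apply⟩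
  obtain ⟨q, ⟨hq1, hqx⟩, hmin⟩ : ∃ q : ℕ, (1 ≤ q ∧ (g.1 ^ q) x = x) ∧
      ∀ j, 1 ≤ j → j < q → (g.1 ^ j) x ≠ x := by
    have h := hx
    exact ⟨Nat.find h, Nat.find_spec h, fun j h1 h2 h3 => Nat.find_min h h2 ⟨h1, h3⟩⟩
  rw [perm_pow] at hqx
  obtain ⟨G, G', B, hG, hcl, hGq, hB⟩ := nondeg Pool.Agent.H88.CL.a_BMP b_CLA b_INV b_BMD n M
    g.1 g.1.symm hDM x q hq1 hqx (fun j h1 h2 h3 => hmin j h1 h2 (by rw [perm_pow]; exact h3))
    nt φ ψ K (fun i => ⟨(hT i).fst, (hT i).snd, (hT i).compact, (hT i).source, (hT i).maps⟩) η hη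
  refine ⟨⟨⟨G, G', hG.li, hG.ri⟩, ⟨hG.c, hG.c'⟩⟩, ?_, fun i => close_of_cls (hcl i)⟩
  -- the tests along the orbit
  have hK : ∀ j : ℕ, ∃ Q : Set M, IsCompact Q ∧ Q ∈ 𝓝 (G^[j] x) ∧
      Q ⊆ (oc G x j : Ch n M).source ∩ G ⁻¹' (oc G x (j + 1) : Ch n M).source := by
    intro j
    have h1 : (oc G x j : Ch n M).source ∩ G ⁻¹' (oc G x (j + 1) : Ch n M).source ∈
        𝓝 (G^[j] x) := by
      apply IsOpen.mem_nhds
      · exact (oc G x j).open_source.inter ((oc G x (j + 1)).open_source.preimage hG.c.continuous)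
      · refine ⟨oc_mem G x j, ?_⟩
        show G (G^[j] x) ∈ (oc G x (j + 1) : Ch n M).source
        rw [← iterate_succ_apply' G j x]
        exact oc_mem G x (j + 1)
    obtain ⟨Q, hQ, hQs, hQc⟩ := local_compact_nhds h1
    exact ⟨Q, hQc, hQ, hQs⟩
  choose Q hQc hQn hQs using hK
  have hex : ∃ η' : ℝ, 0 < η' ∧ ∀ h : Diff n M, (∀ i : Fin q, TCS.Close2 n η' G h.1
      (oc G x i) (oc G x (i + 1)) (Q i)) → ∃ y ∈ V, y ∈ Per h.1 := by
    by_contra hne
    push Not at hne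
    choose h hh1 hh2 using fun i : ℕ => hne (1 / ((i : ℝ) + 1)) (by positivity)
    have hev := persist_seq (h := fun i => ((h i).1 : M → M)) x q hG.c (fun i => (h i).2.1) Q
      (fun j _ => hQn j) (fun i => 1 / ((i : ℝ) + 1)) tendsto_one_div_add_atTop_nhds_zero_nat
      (fun j hj i => cls_of_close (by positivity) (hh1 i ⟨j, hj⟩)) hGq B hB V hV
    obtain ⟨i, y, hyV, hy⟩ := hev.exists
    exact hh2 i y hyV ⟨q, hq1, by rw [perm_pow]; exact hy⟩
  obtain ⟨η', hη', hall⟩ := hex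
  exact ⟨q, fun i => oc G x i, fun i => oc G x (i + 1), fun i => Q i, η', fun i =>
    ⟨oc_ma G x i, oc_ma G x (i + 1), hQc i, fun y hy => (hQs i hy).1, fun y hy => (hQs i hy).2⟩,
    hη', hall⟩

/-- a closable point is a limit of periodic points if `f` is in `Rob V ∪ Out V` for all members `V`
of a basis -/
theorem closable_mem_closure (n : ℕ) (M : Type) [TopologicalSpace M] [T2Space M] [CompactSpace M]
    [ChartedSpace (TCS.E n) M] [IsManifold 𝓘(ℝ, E n) 2 M] {b : Set (Set M)}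
    (hb : TopologicalSpace.IsTopologicalBasis b) (V : ℕ → Set M) (hV1 : b ⊆ range V)
    (hV2 : ∀ k, IsOpen (V k)) (f : Diff n M)
    (hf : ∀ k, f ∈ (Rob n (V k) ∪ Out n (V k) : Set (Diff n M))) (x : M)
    (hx : Closable n f.1 x) : x ∈ closure (Per f.1) := by
  rw [mem_closure_iff_nhds]
  intro W hW
  obtain ⟨U, hUb, hxU, hUW⟩ := hb.mem_nhds_iff.1 hW
  obtain ⟨k, rfl⟩ := hV1 hUb
  have hVx : V k ∈ 𝓝 x := (hV2 k).mem_nhds hxU
  rcases hf k with h | h
  · obtain ⟨nt, φ, ψ, K, η, hT, hη, hall⟩ := h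
    obtain ⟨y, hyV, hy⟩ := hall f fun i => close_self (hT i) hη.le
    exact ⟨y, hUW hyV, hy⟩
  · exfalso
    obtain ⟨nt, φ, ψ, K, η, hT, hη, hall⟩ := h
    obtain ⟨g, hg, hper, hcl⟩ := hx nt φ ψ K (η / 2) hT (by linarith)
    obtain ⟨g', hg', hcl'⟩ := make_robust n M ⟨g, hg⟩ x hper (V k) hVx nt φ ψ K
      (fun i => test_of_close (hT i) (hcl i)) (η / 2) (by linarith)
    exact hall g' (fun i => close_trans (hcl i) (hcl' i)) hg'

/-- limits of periodic points have golden returns -/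
theorem golden_of_closure (n : ℕ) (M : Type) [TopologicalSpace M] [T2Space M] [CompactSpace M]
    [ChartedSpace (TCS.E n) M] [IsManifold 𝓘(ℝ, E n) 2 M] (f : Equiv.Perm M) (x : M)
    (hx : x ∈ closure (Per f)) : GoldenReturns n f x := by
  refine ⟨chartAt (E n) x, IsManifold.chart_mem_maximalAtlas x, mem_chart_source (E n) x,
    fun B hB W hW => ?_⟩
  have h1 : W ∩ (chartAt (E n) x : Ch n M).source ∈ 𝓝 x :=
    inter_mem hW ((chartAt (E n) x : Ch n M).open_source.mem_nhds (mem_chart_source (E n) x))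
  obtain ⟨y, ⟨hyW, hys⟩, m, hm, hy⟩ := mem_closure_iff_nhds.1 hx _ h1
  refine ⟨y, m, hyW, hm, hys, by rw [hy]; exact hys, ?_⟩
  rw [hy, sub_self, norm_zero]
  exact (Real.exp_pos _).le

/-- golden returns imply closability -/
theorem closable_of_golden (n : ℕ) (M : Type) [TopologicalSpace M] [T2Space M] [CompactSpace M]
    [ChartedSpace (TCS.E n) M] (hM : TCS.IsMfd n M) (f : Equiv.Perm M) (hf : TCS.Diff2 n f)
    (x : M) (hx : GRS.GoldenReturns n f x) : Closable n f x :=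
  fun nt φ ψ K η hT hη => final_closing n M hM f hf x hx nt φ ψ K hT η hη

/-- **The generic density theorem.** -/
theorem final_generic (n : ℕ) (M : Type) [TopologicalSpace M] [T2Space M] [CompactSpace M]
    [ChartedSpace (TCS.E n) M] (hM : TCS.IsMfd n M) :
    BaireC2 n {f : Diff n M | {x | Closable n f.1 x} = {x | GoldenReturns n f.1 x} ∧
      closure (Per f.1) = {x | GoldenReturns n f.1 x}} := by
  have : IsManifold 𝓘(ℝ, E n) 2 M := hM
  have hsc : SecondCountableTopology M :=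
    ChartedSpace.secondCountable_of_sigmaCompact (E n) M
  obtain ⟨b, hbc, -, hb⟩ := TopologicalSpace.exists_countable_basis M
  obtain ⟨V, hV⟩ : ∃ V : ℕ → Set M, b ⊆ range V ∧ ∀ k, IsOpen (V k) := by
    rcases b.eq_empty_or_nonempty with h | h
    · exact ⟨fun _ => ∅, by rw [h]; exact empty_subset _, fun _ => isOpen_empty⟩
    · obtain ⟨V, hV⟩ := hbc.exists_eq_range h
      exact ⟨V, hV.le, fun k => hb.isOpen (by rw [hV]; exact mem_range_self k)⟩
  refine ⟨fun k => Rob n (V k) ∪ Out n (V k), fun k =>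
    ⟨openC2_union (rob_open n _) (out_open n _), union_dense n _⟩, fun f hf => ⟨?_, ?_⟩⟩
  · apply Subset.antisymm
    · intro x hx
      exact golden_of_closure n M f.1 x (closable_mem_closure n M hb V hV.1 hV.2 f hf x hx)
    · intro x hx
      exact closable_of_golden n M hM f.1 f.2 x hx
  · apply Subset.antisymm
    · intro x hx
      exact golden_of_closure n M f.1 x hx
    · intro x hx
      exact closable_mem_closure n M hb V hV.1 hV.2 f hf x
        (closable_of_golden n M hM f.1 f.2 x hx)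

end Pool.Agent.H63.GR
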