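import Pool.Agent.H88.CM.Defs

/-! Golden returns (problem MP_43af95_an): continuous convergence of 1-jets, and persistence of a
nondegenerate fixed point. -/

set_option autoImplicit false

open Pool.Agent.H88.CL Pool.Agent.H88.CM Set Function Topology Metric Filter

namespace Pool.Agent.H63.GR

/-- The maps `F i` converge to `G` at `v0`, with the first derivatives (continuous convergence). -/
structure CJ {n : ℕ} (F : ℕ → E n → E n) (G : E n → E n) (v0 : E n) : Prop where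
  d : ∀ᶠ p : ℕ × E n in atTop ×ˢ 𝓝 v0, DifferentiableAt ℝ (F p.1) p.2
  z : Tendsto (fun p : ℕ × E n => F p.1 p.2) (atTop ×ˢ 𝓝 v0) (𝓝 (G v0))
  o : Tendsto (fun p : ℕ × E n => fderiv ℝ (F p.1) p.2) (atTop ×ˢ 𝓝 v0) (𝓝 (fderiv ℝ G v0))

theorem CJ.comp {n : ℕ} {F F' : ℕ → E n → E n} {G G' : E n → E n} {v0 : E n}
    (h : CJ F G v0) (h' : CJ F' G' (G v0)) (hG : DifferentiableAt ℝ G v0)
    (hG' : DifferentiableAt ℝ G' (G v0)) : CJ (fun i => F' i ∘ F i) (G' ∘ G) v0 := by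
  have ht : Tendsto (fun p : ℕ × E n => (p.1, F p.1 p.2)) (atTop ×ˢ 𝓝 v0)
      (atTop ×ˢ 𝓝 (G v0)) := tendsto_fst.prodMk h.z
  have hd : ∀ᶠ p : ℕ × E n in atTop ×ˢ 𝓝 v0,
      DifferentiableAt ℝ (F p.1) p.2 ∧ DifferentiableAt ℝ (F' p.1) (F p.1 p.2) :=
    h.d.and (ht.eventually h'.d)
  refine ⟨?_, ?_, ?_⟩
  · filter_upwards [hd] with p hp
    exact hp.2.comp p.2 hp.1
  · exact h'.z.comp ht
  · have h1 : fderiv ℝ (G' ∘ G) v0 = (fderiv ℝ G' (G v0)).comp (fderiv ℝ G v0) :=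
      fderiv_comp v0 hG' hG
    rw [h1]
    have h2 : Tendsto (fun p : ℕ × E n => (fderiv ℝ (F' p.1) (F p.1 p.2)).comp
        (fderiv ℝ (F p.1) p.2)) (atTop ×ˢ 𝓝 v0)
        (𝓝 ((fderiv ℝ G' (G v0)).comp (fderiv ℝ G v0))) := by
      have hc : Continuous (fun q : (E n →L[ℝ] E n) × (E n →L[ℝ] E n) => q.1.comp q.2) :=
        isBoundedBilinearMap_comp.continuous
      exact (hc.tendsto (fderiv ℝ G' (G v0), fderiv ℝ G v0)).comp
        ((h'.o.comp ht).prodMk_nhds h.o)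
    refine h2.congr' ?_
    filter_upwards [hd] with p hp
    exact (fderiv_comp p.2 hp.2 hp.1).symm

/-- persistence of a nondegenerate fixed point -/
theorem CJ.fixed {n : ℕ} {F : ℕ → E n → E n} {G : E n → E n} {v0 : E n} (h : CJ F G v0)
    (hv : G v0 = v0) (B : E n →L[ℝ] E n)
    (hB : ∀ v, B (fderiv ℝ G v0 v - v) = v) (r : ℝ) (hr : 0 < r) :
    ∀ᶠ i in atTop, ∃ v : E n, ‖v - v0‖ ≤ r ∧ F i v = v := by
  have hBpos : 0 < ‖B‖ + 1 := by positivity
  have hBinj : Injective B := by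
    have hsurj : Surjective B := fun v => ⟨_, hB v⟩
    exact (LinearMap.injective_iff_surjective (f := (B : E n →ₗ[ℝ] E n))).2 hsurj
  -- the derivative is close to its limit
  have h1 : ∀ᶠ p : ℕ × E n in atTop ×ˢ 𝓝 v0, DifferentiableAt ℝ (F p.1) p.2 ∧
      ‖fderiv ℝ (F p.1) p.2 - fderiv ℝ G v0‖ < 1 / (2 * (‖B‖ + 1)) := by
    have h2 := h.o.eventually (Metric.ball_mem_nhds _ (by positivity : 0 < 1 / (2 * (‖B‖ + 1))))
    filter_upwards [h.d, h2] with p hp hp2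
    exact ⟨hp, by rwa [dist_eq_norm] at hp2⟩
  obtain ⟨P, hP, Q, hQ, hPQ⟩ := Filter.eventually_prod_iff.1 h1
  obtain ⟨s, hs, hsQ⟩ := Metric.eventually_nhds_iff_ball.1 hQ
  obtain ⟨ρ, hρ⟩ : ∃ ρ : ℝ, ρ = min r (s / 2) := ⟨_, rfl⟩
  have hρ0 : 0 < ρ := by rw [hρ]; exact lt_min hr (by linarith)
  have hρr : ρ ≤ r := by rw [hρ]; exact min_le_left _ _
  have hρs : ρ < s := by
    have : ρ ≤ s / 2 := by rw [hρ]; exact min_le_right _ _
    linarith
  have h3 : Tendsto (fun i => F i v0) atTop (𝓝 v0) := by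
    have h4 : Tendsto (fun i : ℕ => (i, v0)) atTop (atTop ×ˢ 𝓝 v0) :=
      tendsto_id.prodMk tendsto_const_nhds
    have h5 := h.z.comp h4
    rw [hv] at h5
    exact h5
  have h6 : ∀ᶠ i in atTop, ‖F i v0 - v0‖ < ρ / (2 * (‖B‖ + 1)) := by
    have h7 := h3.eventually (Metric.ball_mem_nhds v0 (by positivity : 0 < ρ / (2 * (‖B‖ + 1))))
    filter_upwards [h7] with i hi
    rwa [dist_eq_norm] at hi
  filter_upwards [hP, h6] with i hiP hi6
  -- the Newton map
  obtain ⟨T, hT⟩ : ∃ T : E n → E n, T = fun v => v - B (F i v - v) := ⟨_, rfl⟩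
  have hball : ∀ v ∈ closedBall v0 ρ, DifferentiableAt ℝ (F i) v ∧
      ‖fderiv ℝ (F i) v - fderiv ℝ G v0‖ < 1 / (2 * (‖B‖ + 1)) := by
    intro v hv'
    exact hPQ hiP (hsQ v (closedBall_subset_ball hρs hv'))
  have hTd : ∀ v ∈ closedBall v0 ρ, HasFDerivAt T (ContinuousLinearMap.id ℝ (E n) -
      B.comp (fderiv ℝ (F i) v - ContinuousLinearMap.id ℝ (E n))) v := by
    intro v hv'
    have h8 := (hball v hv').1.hasFDerivAt
    rw [hT]
    exact (hasFDerivAt_id v).sub (B.hasFDerivAt.comp v (h8.sub (hasFDerivAt_id v)))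
  have hTn : ∀ v ∈ closedBall v0 ρ, ‖ContinuousLinearMap.id ℝ (E n) -
      B.comp (fderiv ℝ (F i) v - ContinuousLinearMap.id ℝ (E n))‖ ≤ 1 / 2 := by
    intro v hv'
    have h8 : ContinuousLinearMap.id ℝ (E n) -
        B.comp (fderiv ℝ (F i) v - ContinuousLinearMap.id ℝ (E n)) =
        B.comp (fderiv ℝ G v0 - fderiv ℝ (F i) v) := by
      ext1 w
      have h9 := hB w
      rw [map_sub] at h9
      have h10 : B (fderiv ℝ G v0 w) = w + B w := sub_eq_iff_eq_add.1 h9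
      show w - B (fderiv ℝ (F i) v w - w) = B (fderiv ℝ G v0 w - fderiv ℝ (F i) v w)
      rw [map_sub, map_sub, h10]
      abel
    rw [h8]
    refine (ContinuousLinearMap.opNorm_comp_le _ _).trans ?_
    rw [norm_sub_rev]
    have h9 := (hball v hv').2.le
    calc ‖B‖ * ‖fderiv ℝ (F i) v - fderiv ℝ G v0‖
        ≤ (‖B‖ + 1) * (1 / (2 * (‖B‖ + 1))) :=
          mul_le_mul (by linarith) h9 (norm_nonneg _) hBpos.le
      _ = 1 / 2 := by field_simp
  have hTL : ∀ v ∈ closedBall v0 ρ, ∀ w ∈ closedBall v0 ρ, ‖T v - T w‖ ≤ 1 / 2 * ‖v - w‖ := by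
    intro v hv' w hw'
    exact (convex_closedBall v0 ρ).norm_image_sub_le_of_norm_hasFDerivWithin_le
      (fun z hz => (hTd z hz).hasFDerivWithinAt) hTn hw' hv'
  have hT0 : ‖T v0 - v0‖ ≤ ρ / 2 := by
    have h8 : T v0 - v0 = -B (F i v0 - v0) := by
      rw [hT]
      simp only
      abel
    rw [h8, norm_neg]
    refine (B.le_opNorm _).trans ?_
    calc ‖B‖ * ‖F i v0 - v0‖ ≤ (‖B‖ + 1) * (ρ / (2 * (‖B‖ + 1))) :=
          mul_le_mul (by linarith) hi6.le (norm_nonneg _) hBpos.le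
      _ = ρ / 2 := by field_simp
  have hmaps : MapsTo T (closedBall v0 ρ) (closedBall v0 ρ) := by
    intro v hv'
    have h8 := hTL v hv' v0 (mem_closedBall_self hρ0.le)
    rw [mem_closedBall, dist_eq_norm] at hv' ⊢
    have h9 : T v - v0 = (T v - T v0) + (T v0 - v0) := by abel
    rw [h9]
    refine (norm_add_le _ _).trans ?_
    linarith
  have hcontr : ContractingWith (1 / 2) (hmaps.restrict T _ _) := by
    refine ⟨by norm_num, ?_⟩
    apply LipschitzWith.of_dist_le_mul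
    rintro ⟨v, hv'⟩ ⟨w, hw'⟩
    have h8 := hTL v hv' w hw'
    rw [Subtype.dist_eq, Subtype.dist_eq, dist_eq_norm, dist_eq_norm]
    push_cast
    exact h8
  obtain ⟨v, hv', hfix, _⟩ := ContractingWith.exists_fixedPoint'
    (isClosed_closedBall (x := v0) (ε := ρ)).isComplete hmaps hcontr
    (mem_closedBall_self hρ0.le) (edist_ne_top _ _)
  refine ⟨v, ?_, ?_⟩
  · rw [mem_closedBall, dist_eq_norm] at hv'
    linarith
  · have h8 : T v = v := hfix
    rw [hT] at h8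
    simp only at h8
    have h9 : B (F i v - v) = 0 := by
      have h10 := sub_eq_self.1 h8
      exact h10
    have h10 : F i v - v = 0 := hBinj (by rw [h9, map_zero])
    exact sub_eq_zero.1 h10

end Pool.Agent.H63.GR
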