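import Pool.Agent.H63.GR.Jets
import Pool.Agent.H91.TC.Defs
import Pool.Agent.H99.CM.LOC

/-! Golden returns (problem MP_43af95_an): a nondegenerate periodic point persists. -/

set_option autoImplicit false

open Set Function Topology Metric Filter
open scoped Manifold
open Pool.Agent.H88.CL Pool.Agent.H88.CM Pool.Agent.H91.TC Pool.Agent.H99.CM

namespace Pool.Agent.H63.GR

/-- congruence for the convergence of 1-jets -/
theorem CJ.congr {n : ℕ} {F F' : ℕ → E n → E n} {G G' : E n → E n} {v0 : E n} (h : CJ F G v0)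
    (hF : ∀ᶠ p : ℕ × E n in atTop ×ˢ 𝓝 v0, F p.1 p.2 = F' p.1 p.2) (hG : G =ᶠ[𝓝 v0] G') :
    CJ F' G' v0 := by
  have h1 : ∀ᶠ p : ℕ × E n in atTop ×ˢ 𝓝 v0, F p.1 =ᶠ[𝓝 p.2] F' p.1 := by
    obtain ⟨P, hP, Q, hQ, hPQ⟩ := Filter.eventually_prod_iff.1 hF
    have h2 : ∀ᶠ p : ℕ × E n in atTop ×ˢ 𝓝 v0, P p.1 ∧ ∀ᶠ w in 𝓝 p.2, Q w :=
      (hP.prod_mk (eventually_eventually_nhds.2 hQ))
    filter_upwards [h2] with p hp
    filter_upwards [hp.2] with w hw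
    exact hPQ hp.1 hw
  refine ⟨?_, ?_, ?_⟩
  · filter_upwards [h.d, h1] with p hp hp1
    exact hp1.differentiableAt_iff.1 hp
  · rw [← hG.eq_of_nhds]
    exact h.z.congr' (hF.mono fun p hp => hp)
  · rw [← hG.fderiv_eq]
    refine h.o.congr' ?_
    filter_upwards [h1] with p hp
    exact hp.fderiv_eq

/-- one test: uniform closeness gives the convergence of 1-jets -/
theorem one_test {n : ℕ} {M : Type} [TopologicalSpace M] [T2Space M] [ChartedSpace (E n) M]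
    [IsManifold 𝓘(ℝ, E n) 2 M] {g : M → M} {h : ℕ → M → M} {φ ψ : Ch n M} {K : Set M} {y : M}
    (hφ : φ ∈ MA n M) (hψ : ψ ∈ MA n M) (hg : ContMDiff 𝓘(ℝ, E n) 𝓘(ℝ, E n) 2 g)
    (hh : ∀ i, ContMDiff 𝓘(ℝ, E n) 𝓘(ℝ, E n) 2 (h i)) (hyφ : y ∈ φ.source)
    (hyψ : g y ∈ ψ.source) (hK : K ∈ 𝓝 y) (e : ℕ → ℝ) (he : Tendsto e atTop (𝓝 0))
    (hcl : ∀ i, Cls2T n (e i) g (h i) φ ψ K) :
    Tendsto (fun p : ℕ × M => h p.1 p.2) (atTop ×ˢ 𝓝 y) (𝓝 (g y)) ∧
      CJ (fun i => rep φ ψ (h i)) (rep φ ψ g) (φ y) := by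
  have hKe : ∀ᶠ p : ℕ × M in atTop ×ˢ 𝓝 y, p.2 ∈ K := tendsto_snd.eventually hK
  have het : Tendsto (fun p : ℕ × M => e p.1) (atTop ×ˢ 𝓝 y) (𝓝 0) := he.comp tendsto_fst
  -- values
  have hz0 : Tendsto (fun p : ℕ × M => ψ (h p.1 p.2)) (atTop ×ˢ 𝓝 y) (𝓝 (ψ (g y))) := by
    have h1 : Tendsto (fun p : ℕ × M => ψ (g p.2)) (atTop ×ˢ 𝓝 y) (𝓝 (ψ (g y))) :=
      ((ψ.continuousAt hyψ).tendsto.comp (hg.continuous.tendsto y)).comp tendsto_snd
    have h2 : Tendsto (fun p : ℕ × M => ψ (h p.1 p.2) - ψ (g p.2)) (atTop ×ˢ 𝓝 y) (𝓝 0) := by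
      apply squeeze_zero_norm' _ het
      filter_upwards [hKe] with p hp
      exact (hcl p.1).z p.2 hp
    have h3 := h1.add h2
    rw [add_zero] at h3
    refine h3.congr fun p => ?_
    abel
  have hval : Tendsto (fun p : ℕ × M => h p.1 p.2) (atTop ×ˢ 𝓝 y) (𝓝 (g y)) := by
    have h1 : Tendsto (fun p : ℕ × M => ψ.symm (ψ (h p.1 p.2))) (atTop ×ˢ 𝓝 y) (𝓝 (g y)) := by
      have h2 := (ψ.symm.continuousAt (x := ψ (g y)) (ψ.map_source hyψ)).tendsto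
      rw [ψ.left_inv hyψ] at h2
      exact h2.comp hz0
    refine h1.congr' ?_
    filter_upwards [hKe] with p hp
    exact ψ.left_inv ((hcl p.1).m p.2 hp)
  refine ⟨hval, ?_⟩
  have hφt : φ y ∈ φ.target := φ.map_source hyφ
  have hsym : Tendsto (fun p : ℕ × E n => (p.1, φ.symm p.2)) (atTop ×ˢ 𝓝 (φ y))
      (atTop ×ˢ 𝓝 y) := by
    have h2 := (φ.symm.continuousAt (x := φ y) hφt).tendsto
    rw [φ.left_inv hyφ] at h2
    exact tendsto_fst.prodMk (h2.comp tendsto_snd)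
  have htar : ∀ᶠ p : ℕ × E n in atTop ×ˢ 𝓝 (φ y), p.2 ∈ φ.target :=
    tendsto_snd.eventually (φ.open_target.mem_nhds hφt)
  have hKe' : ∀ᶠ p : ℕ × E n in atTop ×ˢ 𝓝 (φ y), φ.symm p.2 ∈ K := hsym.eventually hKe
  refine ⟨?_, ?_, ?_⟩
  · filter_upwards [htar, hKe'] with p hp hp2
    exact rep_df φ ψ hφ hψ (hh p.1) ⟨hp, (hcl p.1).m _ hp2⟩
  · have h1 : rep φ ψ g (φ y) = ψ (g y) := by
      show ψ (g (φ.symm (φ y))) = _
      rw [φ.left_inv hyφ]
    rw [h1]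
    exact hz0.comp hsym
  · have hdom : φ y ∈ dom φ ψ g := ⟨hφt, by
      show g (φ.symm (φ y)) ∈ ψ.source
      rw [φ.left_inv hyφ]
      exact hyψ⟩
    have h1 : ContinuousAt (fderiv ℝ (rep φ ψ g)) (φ y) := by
      have h2 := (rep_cd φ ψ hφ hψ hg).contDiffAt
        ((dom_open φ ψ hg.continuous).mem_nhds hdom)
      exact (h2.fderiv_right (m := 1) (by norm_num)).continuousAt
    have h2 : Tendsto (fun p : ℕ × E n => fderiv ℝ (rep φ ψ g) p.2) (atTop ×ˢ 𝓝 (φ y))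
        (𝓝 (fderiv ℝ (rep φ ψ g) (φ y))) := h1.tendsto.comp tendsto_snd
    have h3 : Tendsto (fun p : ℕ × E n => fderiv ℝ (rep φ ψ (h p.1)) p.2 -
        fderiv ℝ (rep φ ψ g) p.2) (atTop ×ˢ 𝓝 (φ y)) (𝓝 0) := by
      have het' : Tendsto (fun p : ℕ × E n => e p.1) (atTop ×ˢ 𝓝 (φ y)) (𝓝 0) :=
        he.comp tendsto_fst
      apply squeeze_zero_norm' _ het'
      filter_upwards [htar, hKe'] with p hp hp2
      exact (hcl p.1).o p.2 ⟨φ.symm p.2, hp2, φ.right_inv hp⟩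
    have h4 := h2.add h3
    rw [add_zero] at h4
    refine h4.congr fun p => ?_
    abel

/-- the charts along the orbit of `x` -/
noncomputable def oc {n : ℕ} {M : Type} [TopologicalSpace M] [ChartedSpace (E n) M] (g : M → M)
    (x : M) (j : ℕ) : Ch n M := chartAt (E n) (g^[j] x)

theorem oc_mem {n : ℕ} {M : Type} [TopologicalSpace M] [ChartedSpace (E n) M] (g : M → M)
    (x : M) (j : ℕ) : g^[j] x ∈ (oc g x j : Ch n M).source := mem_chart_source (E n) _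

theorem oc_ma {n : ℕ} {M : Type} [TopologicalSpace M] [ChartedSpace (E n) M]
    [IsManifold 𝓘(ℝ, E n) 2 M] (g : M → M) (x : M) (j : ℕ) : (oc g x j : Ch n M) ∈ MA n M :=
  IsManifold.chart_mem_maximalAtlas _

/-- convergence along an orbit -/
theorem orbit_conv {n : ℕ} {M : Type} [TopologicalSpace M] [T2Space M] [ChartedSpace (E n) M]
    [IsManifold 𝓘(ℝ, E n) 2 M] {g : M → M} {h : ℕ → M → M} (x : M) (q : ℕ)
    (hg : ContMDiff 𝓘(ℝ, E n) 𝓘(ℝ, E n) 2 g)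
    (hh : ∀ i, ContMDiff 𝓘(ℝ, E n) 𝓘(ℝ, E n) 2 (h i)) (K : ℕ → Set M)
    (hK : ∀ j < q, K j ∈ 𝓝 (g^[j] x)) (e : ℕ → ℝ) (he : Tendsto e atTop (𝓝 0))
    (hcl : ∀ j < q, ∀ i, Cls2T n (e i) g (h i) (oc g x j) (oc g x (j + 1)) (K j)) :
    ∀ j ≤ q, Tendsto (fun p : ℕ × M => (h p.1)^[j] p.2) (atTop ×ˢ 𝓝 x) (𝓝 (g^[j] x)) ∧
      CJ (fun i => rep (oc g x 0) (oc g x j) ((h i)^[j])) (rep (oc g x 0) (oc g x j) (g^[j]))
        ((oc g x 0 : Ch n M) x) ∧
      DifferentiableAt ℝ (rep (oc g x 0) (oc g x j) (g^[j])) ((oc g x 0 : Ch n M) x) := by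
  have hx0 : x ∈ (oc g x 0 : Ch n M).source := oc_mem g x 0
  have hxt : (oc g x 0 : Ch n M) x ∈ (oc g x 0 : Ch n M).target := (oc g x 0).map_source hx0
  have hgj : ∀ j, ContMDiff 𝓘(ℝ, E n) 𝓘(ℝ, E n) 2 (g^[j]) := by
    intro j
    induction j with
    | zero => exact contMDiff_id
    | succ j ih =>
      rw [iterate_succ']
      exact hg.comp ih
  have hdiff : ∀ j, DifferentiableAt ℝ (rep (oc g x 0) (oc g x j) (g^[j]))
      ((oc g x 0 : Ch n M) x) := by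
    intro j
    refine rep_df _ _ (oc_ma g x 0) (oc_ma g x j) (hgj j) ⟨hxt, ?_⟩
    show g^[j] ((oc g x 0 : Ch n M).symm ((oc g x 0 : Ch n M) x)) ∈ (oc g x j : Ch n M).source
    rw [(oc g x 0).left_inv hx0]
    exact oc_mem g x j
  have hsym : Tendsto (fun p : ℕ × E n => (p.1, (oc g x 0 : Ch n M).symm p.2))
      (atTop ×ˢ 𝓝 ((oc g x 0 : Ch n M) x)) (atTop ×ˢ 𝓝 x) := by
    have h2 := ((oc g x 0 : Ch n M).symm.continuousAt (x := (oc g x 0 : Ch n M) x) hxt).tendsto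
    rw [(oc g x 0).left_inv hx0] at h2
    exact tendsto_fst.prodMk (h2.comp tendsto_snd)
  intro j
  induction j with
  | zero =>
    intro _
    refine ⟨tendsto_snd, ?_, hdiff 0⟩
    have h1 : (id : E n → E n) =ᶠ[𝓝 ((oc g x 0 : Ch n M) x)]
        rep (oc g x 0) (oc g x 0) (g^[0]) := by
      filter_upwards [(oc g x 0 : Ch n M).open_target.mem_nhds hxt] with v hv
      exact ((oc g x 0 : Ch n M).right_inv hv).symm
    have h0 : CJ (fun _ => (id : E n → E n)) id ((oc g x 0 : Ch n M) x) := by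
      refine ⟨Eventually.of_forall fun p => differentiableAt_id, tendsto_snd, ?_⟩
      simp only [fderiv_id]
      exact tendsto_const_nhds
    refine h0.congr ?_ h1
    have h2 : ∀ᶠ p : ℕ × E n in atTop ×ˢ 𝓝 ((oc g x 0 : Ch n M) x),
        p.2 ∈ (oc g x 0 : Ch n M).target :=
      tendsto_snd.eventually ((oc g x 0 : Ch n M).open_target.mem_nhds hxt)
    filter_upwards [h2] with p hp
    exact ((oc g x 0 : Ch n M).right_inv hp).symm
  | succ j ih =>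
    intro hj
    obtain ⟨h1, h2, h3⟩ := ih (by omega)
    have hyψ : g (g^[j] x) ∈ (oc g x (j + 1) : Ch n M).source := by
      have := oc_mem (n := n) g x (j + 1)
      rwa [iterate_succ_apply'] at this
    obtain ⟨h4, h5⟩ := one_test (oc_ma g x j) (oc_ma g x (j + 1)) hg hh (oc_mem g x j) hyψ
      (hK j (by omega)) e he (hcl j (by omega))
    have hjt : (oc g x j : Ch n M) (g^[j] x) ∈ (oc g x j : Ch n M).target :=
      (oc g x j).map_source (oc_mem g x j)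
    have e0 : rep (oc g x 0) (oc g x j) (g^[j]) ((oc g x 0 : Ch n M) x) =
        (oc g x j : Ch n M) (g^[j] x) := by
      show (oc g x j : Ch n M) (g^[j] ((oc g x 0 : Ch n M).symm ((oc g x 0 : Ch n M) x))) = _
      rw [(oc g x 0).left_inv hx0]
    refine ⟨?_, ?_, hdiff (j + 1)⟩
    · rw [iterate_succ_apply']
      have h6 : Tendsto (fun p : ℕ × M => (p.1, (h p.1)^[j] p.2)) (atTop ×ˢ 𝓝 x)
          (atTop ×ˢ 𝓝 (g^[j] x)) := tendsto_fst.prodMk h1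
      refine (h4.comp h6).congr fun p => ?_
      show h p.1 ((h p.1)^[j] p.2) = _
      rw [iterate_succ_apply']
    · have h7 : DifferentiableAt ℝ (rep (oc g x j) (oc g x (j + 1)) g)
          (rep (oc g x 0) (oc g x j) (g^[j]) ((oc g x 0 : Ch n M) x)) := by
        rw [e0]
        refine rep_df _ _ (oc_ma g x j) (oc_ma g x (j + 1)) hg ⟨hjt, ?_⟩
        show g ((oc g x j : Ch n M).symm ((oc g x j : Ch n M) (g^[j] x))) ∈
          (oc g x (j + 1) : Ch n M).source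
        rw [(oc g x j).left_inv (oc_mem g x j)]
        exact hyψ
      have h8 := h2.comp (by rw [e0]; exact h5) h3 h7
      refine h8.congr ?_ ?_
      · have h9 : ∀ᶠ p : ℕ × E n in atTop ×ˢ 𝓝 ((oc g x 0 : Ch n M) x),
            (h p.1)^[j] ((oc g x 0 : Ch n M).symm p.2) ∈ (oc g x j : Ch n M).source :=
          (h1.comp hsym).eventually ((oc g x j).open_source.mem_nhds (oc_mem g x j))
        filter_upwards [h9] with p hp
        show (oc g x (j + 1) : Ch n M) (h p.1 ((oc g x j : Ch n M).symm ((oc g x j : Ch n M)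
          ((h p.1)^[j] ((oc g x 0 : Ch n M).symm p.2))))) =
          (oc g x (j + 1) : Ch n M) ((h p.1)^[j + 1] ((oc g x 0 : Ch n M).symm p.2))
        rw [(oc g x j).left_inv hp, iterate_succ_apply']
      · have h9 : ∀ᶠ v in 𝓝 ((oc g x 0 : Ch n M) x),
            g^[j] ((oc g x 0 : Ch n M).symm v) ∈ (oc g x j : Ch n M).source := by
          have h10 := ((oc g x 0 : Ch n M).symm.continuousAt
            (x := (oc g x 0 : Ch n M) x) hxt).tendsto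
          rw [(oc g x 0).left_inv hx0] at h10
          exact (((hgj j).continuous.tendsto x).comp h10).eventually
            ((oc g x j).open_source.mem_nhds (oc_mem g x j))
        filter_upwards [h9] with v hv
        show (oc g x (j + 1) : Ch n M) (g ((oc g x j : Ch n M).symm ((oc g x j : Ch n M)
          (g^[j] ((oc g x 0 : Ch n M).symm v))))) =
          (oc g x (j + 1) : Ch n M) (g^[j + 1] ((oc g x 0 : Ch n M).symm v))
        rw [(oc g x j).left_inv hv, iterate_succ_apply']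

/-- a nondegenerate periodic point persists, sequence form -/
theorem persist_seq {n : ℕ} {M : Type} [TopologicalSpace M] [T2Space M] [ChartedSpace (E n) M]
    [IsManifold 𝓘(ℝ, E n) 2 M] {g : M → M} {h : ℕ → M → M} (x : M) (q : ℕ)
    (hg : ContMDiff 𝓘(ℝ, E n) 𝓘(ℝ, E n) 2 g)
    (hh : ∀ i, ContMDiff 𝓘(ℝ, E n) 𝓘(ℝ, E n) 2 (h i)) (K : ℕ → Set M)
    (hK : ∀ j < q, K j ∈ 𝓝 (g^[j] x)) (e : ℕ → ℝ) (he : Tendsto e atTop (𝓝 0))
    (hcl : ∀ j < q, ∀ i, Cls2T n (e i) g (h i) (oc g x j) (oc g x (j + 1)) (K j))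
    (hq : g^[q] x = x) (B : E n →L[ℝ] E n)
    (hB : ∀ v, B (fderiv ℝ (rep (oc g x 0) (oc g x 0) (g^[q])) ((oc g x 0 : Ch n M) x) v - v) = v)
    (V : Set M) (hV : V ∈ 𝓝 x) : ∀ᶠ i in atTop, ∃ y ∈ V, (h i)^[q] y = y := by
  obtain ⟨h1, h2, _⟩ := orbit_conv x q hg hh K hK e he hcl q le_rfl
  have hoc : (oc g x q : Ch n M) = oc g x 0 := by
    unfold oc
    rw [hq]
    rfl
  rw [hoc] at h2
  rw [hq] at h1
  have hx0 : x ∈ (oc g x 0 : Ch n M).source := oc_mem g x 0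
  have hxt : (oc g x 0 : Ch n M) x ∈ (oc g x 0 : Ch n M).target := (oc g x 0).map_source hx0
  have hfix : rep (oc g x 0) (oc g x 0) (g^[q]) ((oc g x 0 : Ch n M) x) =
      (oc g x 0 : Ch n M) x := by
    show (oc g x 0 : Ch n M) (g^[q] ((oc g x 0 : Ch n M).symm ((oc g x 0 : Ch n M) x))) = _
    rw [(oc g x 0).left_inv hx0, hq]
  have hsym : Tendsto (oc g x 0 : Ch n M).symm (𝓝 ((oc g x 0 : Ch n M) x)) (𝓝 x) := by
    have h3 := ((oc g x 0 : Ch n M).symm.continuousAt (x := (oc g x 0 : Ch n M) x) hxt).tendsto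
    rwa [(oc g x 0).left_inv hx0] at h3
  have h3 : ∀ᶠ p : ℕ × E n in atTop ×ˢ 𝓝 ((oc g x 0 : Ch n M) x),
      (oc g x 0 : Ch n M).symm p.2 ∈ V ∧ p.2 ∈ (oc g x 0 : Ch n M).target ∧
      (h p.1)^[q] ((oc g x 0 : Ch n M).symm p.2) ∈ (oc g x 0 : Ch n M).source := by
    have h4 : ∀ᶠ p : ℕ × E n in atTop ×ˢ 𝓝 ((oc g x 0 : Ch n M) x),
        (oc g x 0 : Ch n M).symm p.2 ∈ V := (hsym.comp tendsto_snd).eventually hV
    have h5 : ∀ᶠ p : ℕ × E n in atTop ×ˢ 𝓝 ((oc g x 0 : Ch n M) x),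
        p.2 ∈ (oc g x 0 : Ch n M).target :=
      tendsto_snd.eventually ((oc g x 0).open_target.mem_nhds hxt)
    have h6 : Tendsto (fun p : ℕ × E n => (p.1, (oc g x 0 : Ch n M).symm p.2))
        (atTop ×ˢ 𝓝 ((oc g x 0 : Ch n M) x)) (atTop ×ˢ 𝓝 x) :=
      tendsto_fst.prodMk (hsym.comp tendsto_snd)
    have h7 : ∀ᶠ p : ℕ × E n in atTop ×ˢ 𝓝 ((oc g x 0 : Ch n M) x),
        (h p.1)^[q] ((oc g x 0 : Ch n M).symm p.2) ∈ (oc g x 0 : Ch n M).source :=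
      (h1.comp h6).eventually ((oc g x 0).open_source.mem_nhds hx0)
    exact h4.and (h5.and h7)
  obtain ⟨P, hP, Q, hQ, hPQ⟩ := Filter.eventually_prod_iff.1 h3
  obtain ⟨s, hs, hsQ⟩ := Metric.eventually_nhds_iff_ball.1 hQ
  filter_upwards [h2.fixed hfix B hB (s / 2) (by linarith), hP] with i hi hiP
  obtain ⟨v, hv, hvf⟩ := hi
  obtain ⟨a1, a2, a3⟩ := hPQ hiP (hsQ v (by
    rw [Metric.mem_ball, dist_eq_norm]
    linarith))
  refine ⟨(oc g x 0 : Ch n M).symm v, a1, ?_⟩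
  have h4 : (oc g x 0 : Ch n M) ((h i)^[q] ((oc g x 0 : Ch n M).symm v)) = v := hvf
  rw [← (oc g x 0).left_inv a3]
  show (oc g x 0 : Ch n M).symm ((oc g x 0 : Ch n M)
    ((h i)^[q] ((oc g x 0 : Ch n M).symm v))) = _
  rw [h4]

end Pool.Agent.H63.GR
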