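import Pool.Agent.H91.TC.Statement

/-! The definitions used in the statement of the closing lemma for golden returns (problem
MP_43af95_an), in addition to those of `Pool/Agent/H91/TC/Statement.lean` (namespace
`Pool.Agent.H91.TCS`). -/

set_option autoImplicit false

open Set Function Topology Filter
open Pool.Agent.H91.TCS

namespace Pool.Agent.H63.GRS

noncomputable section

/-- The exponent `s = log₂ ((1 + √5) / 2) = 0.694…`, the solution of `2^(-s) + 4^(-s) = 1`. -/
def goldenExponent : ℝ := Real.logb 2 ((1 + √5) / 2)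

/-- The point `x` has golden returns: in some `C²` chart `φ` around `x`, for every `B > 0` there are,
arbitrarily close to `x`, points `y` which return at distance at most `exp (- B m ^ s)` of themselves
after some time `m ≥ 1`. -/
def GoldenReturns (n : ℕ) {M : Type} [TopologicalSpace M] [ChartedSpace (E n) M]
    (f : Equiv.Perm M) (x : M) : Prop :=
  ∃ φ : Chart n M, IsC2Chart n φ ∧ x ∈ φ.source ∧ ∀ B : ℝ, 0 < B → ∀ V ∈ 𝓝 x,
    ∃ (y : M) (m : ℕ), y ∈ V ∧ 1 ≤ m ∧ y ∈ φ.source ∧ (f ^ m) y ∈ φ.source ∧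
      ‖φ ((f ^ m) y) - φ y‖ ≤ Real.exp (-(B * (m : ℝ) ^ goldenExponent))

/-- The point `x` is `C²` closable for `f`: for each finite family of tests and `η > 0` there is a
`C²` diffeomorphism `g`, `η`-close to `f` in the `C²` sense on the tests, for which `x` is
periodic. -/
def Closable (n : ℕ) {M : Type} [TopologicalSpace M] [ChartedSpace (E n) M]
    (f : Equiv.Perm M) (x : M) : Prop :=
  ∀ (nt : ℕ) (φ ψ : Fin nt → Chart n M) (K : Fin nt → Set M) (η : ℝ),
    (∀ i, Test n f (φ i) (ψ i) (K i)) → 0 < η →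
    ∃ g : Equiv.Perm M, Diff2 n g ∧ (∃ m : ℕ, 1 ≤ m ∧ (g ^ m) x = x) ∧
      ∀ i, Close2 n η f g (φ i) (ψ i) (K i)

/-- The `C²` diffeomorphisms of `M`. -/
abbrev Diff (n : ℕ) (M : Type) [TopologicalSpace M] [ChartedSpace (E n) M] :=
  {f : Equiv.Perm M // Diff2 n f}

/-- `U` is open in the `C²` topology: for each `f` in `U` there are finitely many tests for `f` and
`η > 0` such that `U` contains all `g` which are `η`-close to `f` on these tests. -/
def OpenC2 (n : ℕ) {M : Type} [TopologicalSpace M] [ChartedSpace (E n) M]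
    (U : Set (Diff n M)) : Prop :=
  ∀ f ∈ U, ∃ (nt : ℕ) (φ ψ : Fin nt → Chart n M) (K : Fin nt → Set M) (η : ℝ),
    (∀ i, Test n f.1 (φ i) (ψ i) (K i)) ∧ 0 < η ∧
    ∀ g : Diff n M, (∀ i, Close2 n η f.1 g.1 (φ i) (ψ i) (K i)) → g ∈ U

/-- `U` is dense in the `C²` topology. -/
def DenseC2 (n : ℕ) {M : Type} [TopologicalSpace M] [ChartedSpace (E n) M]
    (U : Set (Diff n M)) : Prop :=
  ∀ (f : Diff n M) (nt : ℕ) (φ ψ : Fin nt → Chart n M) (K : Fin nt → Set M) (η : ℝ),
    (∀ i, Test n f.1 (φ i) (ψ i) (K i)) → 0 < η →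
    ∃ g ∈ U, ∀ i, Close2 n η f.1 g.1 (φ i) (ψ i) (K i)

/-- `G` is a Baire (residual) set of `Diff²(M)`: it contains a countable intersection of open dense
sets. -/
def BaireC2 (n : ℕ) {M : Type} [TopologicalSpace M] [ChartedSpace (E n) M]
    (G : Set (Diff n M)) : Prop :=
  ∃ U : ℕ → Set (Diff n M), (∀ k, OpenC2 n (U k) ∧ DenseC2 n (U k)) ∧ ∀ f, (∀ k, f ∈ U k) → f ∈ G

/-- The periodic points of `f`. -/
def Per {M : Type} (f : Equiv.Perm M) : Set M := {x | ∃ m : ℕ, 1 ≤ m ∧ (f ^ m) x = x}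

end

end Pool.Agent.H63.GRS
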